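import Pool.Agent.Run7.h47.SD.Iface

/-!
# Project SD, second stage (helper47): strong disorder, the whole bulk of the spectrum

For every `T` there is `C_T` such that for `|σ| ≥ C_T d` an arbitrarily small change of the kinetic
energy gives a.c. spectrum in `(-T |σ|, T |σ|)`. New: the law is shifted to the energy and rescaled
(affine covariance of `GX`), so only `Δ` itself (not the energy) has to be small against `σ`.
-/

set_option autoImplicit false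

namespace Pool.Agent.Run7.h47.SD

open MeasureTheory Filter Pool.Agent.W792.LL Pool.Agent.W792.WA Pool.Agent.N659.HB
open ProbabilityTheory
open scoped Topology ENNReal

noncomputable section

/-- Laws for which the theorem holds at energies `|E| ≤ T sg`. -/
def AdmT (ν₀ : Measure ℝ) (T : ℝ) : Prop :=
  ∃ C₀ C₁ : ℝ, 0 < C₀ ∧ 2 ≤ C₁ ∧ ∀ sg e : ℝ, 1 ≤ sg → |e| ≤ T * sg →
    ML (ν₀.map fun x => sg * x - e) (C₀ / sg) C₁

/-- MGT. Gaussian law, from the proof of MOMG (`Pool/Agent/Run7/h361/SD/MOMG.lean`): a shift of the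
law multiplies the characteristic function by a phase, so the upper bounds are the same; lower bound
`Im E 1/(v - e - i) = E 1/(1 + (v-e)²) ≥ P(|v - e| ≤ 1) / 2 ≥ exp(-(T+1)²/2) / (sg √(2π))`. -/
def S_MGT : Prop := ∀ T : ℝ, 0 < T → AdmT (gaussianReal 0 1) T

/-- MUT. Uniform law on `[-1, 1]`, `T < 1` (as MOMU, `Pool/Agent/Run7/h888/SD/MOMU.lean`): `m ≥ 2`:
`|(1/2) ∫_{-1}^1 (sg x - e - i)^(-m) dx| ≤ (1/(sg (m-1))) ((1-T) sg)^(1-m)`, so `A = C₀ / sg` with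
`C₀` about `4 / (1 - T)`; `m = 1`: real part `(1/(4 sg)) log` of a ratio between `((1-T)/4)²` and its
inverse, imaginary part `(arctan(sg - e) + arctan(sg + e)) / (2 sg) ≥ (π/8) / sg`. -/
def S_MUT : Prop := ∀ T : ℝ, 0 < T → T < 1 →
  AdmT ((1 / 2 : ℝ≥0∞) • (volume.restrict (Set.Icc (-1 : ℝ) 1))) T

/-- AFC. Affine covariance: `E (X + V)⁻¹ = lam E (lam (X + e) + lam (V - e))⁻¹`. With the bounded
operators `B = diag 1/(v - i)`, `B' = diag 1/(lam (v - e) - i)`, `R = RR_X(v)` (see `N916/HB/SE2` and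
`Run7/h83/SD/RESA`) one has `(1 + B (X + i)) R = B`; `lam B' = (1 - κ B') B` with
`κ = lam i - lam e - i` (diagonal operators commute), so `(1 + B' (X' + i)) R = lam B'`,
`X' = lam (X + e)`; `1 + B' (X' + i) = (1 - c' m') (X' - i) / (-2 i)` is invertible, so
`R = lam RR_{X'}(lam (v - e))`; take the mean (`S_CSYM`, `Pn (ν.map f)` is the image of `Pn ν`:
`Measure.infinitePi_map_pi`), compare symbols (`S_SYMB`). -/
def S_AFC : Prop :=
  ∀ (ν : Measure ℝ) [IsProbabilityMeasure ν] (d : ℕ) (c lam e : ℝ)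
    (X : C(UnitAddTorus (Fin d), ℂ)) [IsProbabilityMeasure (ν.map fun v => lam * (v - e))],
    0 < c → (∀ k, (X k).im ≤ -c) → 0 < lam → ∀ k,
      GX ν X k = lam * GX (ν.map fun v => lam * (v - e)) ((lam : ℂ) • (X + ct d e)) k

/-- The image of a set of symbols under the Cayley transform. -/
def cyi {d : ℕ} (P : Set C(UnitAddTorus (Fin d), ℂ)) : Set C(UnitAddTorus (Fin d), ℂ) :=
  {s | ∃ S ∈ P, ∀ k, s k = cayx (S k) 0}

/-- CLO. Closed images (generalization of ZCL, `Pool/Agent/Run7/h888/SD/ZCL.lean`). -/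
def S_CLO : Prop :=
  ∀ (d : ℕ) (P : Set C(UnitAddTorus (Fin d), ℂ)) (R η : ℝ), 0 < η → IsClosed P →
    (∀ S ∈ P, ∀ k, ‖S k‖ ≤ R ∧ (S k).im ≤ -η) →
    IsClosed (cyi P) ∧ ∀ s ∈ cyi P, ‖s‖ ≤ 1 - 2 * η / (R + 1) ^ 2

/-- GAPB. The gap (helper47). -/
def S_GAPB : Prop :=
  ∀ C₁ : ℝ, 2 ≤ C₁ → ∃ κ : ℝ, 0 < κ ∧ ∀ (ψ : C(UnitAddCircle, ℝ)), IsSemi ψ →
    ∀ (ν : Measure ℝ) [IsProbabilityMeasure ν] (d : ℕ) (A β r lam R η₁ : ℝ)
      (K : C(UnitAddTorus (Fin d), ℝ)), 0 < d → 0 < vr ν → 0 < A → 0 < lam → 0 < η₁ → 0 < r →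
      lam * r ≤ 1 / 4 → 0 ≤ β → A * (β + 2) ≤ κ →
      (∀ z ∈ Zs d, z.im ≤ η₁ → ∃ e : ℝ, |e| ≤ R ∧ ML (ν.map fun v => lam * (v - e)) A C₁ ∧
        Wn (toC (fun k => (lam : ℂ) * (((K k : ℂ) - z) + e)) : C(UnitAddTorus (Fin d), ℂ)) β) →
      ∃ g : ℝ, 0 < g ∧
      ∀ (ρ' : Measure ℝ) [IsProbabilityMeasure ρ'], ρ' (Set.Icc (-(r / 8)) (r / 8))ᶜ = 0 →
        ∀ z ∈ Zs d, ∀ s, IsFix ν ((lev ψ r).conv ρ') (wz K z) s → ‖s‖ ≤ 1 - g

/-- FINB. The theorem in the bulk, for every kinetic energy in the Wiener algebra. With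
`a = T sg`, `γ = 2 d / a`, `K' = γ (K + a)`, `e = Re z - γ a`, `M` a large constant (depending on
`C₀`, `κ`), `lam = M / (γ sg)`, `η₁ = 1 / lam`: the law is the image of `ν₀` under
`x ↦ M x - M (e / (γ sg))`, `β = lam γ B + 1 = M B / sg + 1`, `A = C₀ / M`. -/
def S_FINB : Prop :=
  ∀ (ν₀ : Measure ℝ) [IsProbabilityMeasure ν₀] (T : ℝ), 0 < T → (∀ x : ℝ, ν₀ {x} < 1) →
    AdmT ν₀ T → ∃ C : ℝ, 0 < C ∧
    ∀ (d : ℕ) (K : C(UnitAddTorus (Fin d), ℝ)) (B sg ε : ℝ), 0 < d → Wn (cR K) B →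
      0 < sg → C * B ≤ sg → 0 < ε →
      ∃ b : C(ℝ, ℝ), (∀ t, |b t| ≤ ε) ∧
        (∀ x : Fin d → ℤ,
          ‖UnitAddTorus.mFourierCoeff (fun k : UnitAddTorus (Fin d) =>
            ((b (lap d k) : ℝ) : ℂ)) x‖ ≤ ε / (1 + ‖x‖) ^ ((d : ℝ) / 3)) ∧
        ∀ᵐ v ∂(Pn ν₀ (Fin d → ℤ)), ACIK (K + gK b d) sg v (-(T * sg)) (T * sg)

end

end Pool.Agent.Run7.h47.SD
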