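import Pool.Agent.Run7.h47.SD.Iface2
import Pool.Agent.Run7.h83.SD.RESA

/-!
# Project SD, stage 2: affine covariance
-/

set_option autoImplicit false

namespace Pool.Agent.Run7.h47.SD

open MeasureTheory Filter Pool.Agent.W792.LL Pool.Agent.W792.WA Pool.Agent.N659.HB
open Pool.Agent.N916.HB (mS toC_mS m_rel X_ne)
open scoped Topology ENNReal

noncomputable section

variable {d : ℕ}

/-- The Cayley transform of a dissipative symbol. -/
def mm (X : C(UnitAddTorus (Fin d), ℂ)) : C(UnitAddTorus (Fin d), ℂ) := toC fun k => cayx (X k) 0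

theorem mm_eq {c : ℝ} (hc : 0 < c) {X : C(UnitAddTorus (Fin d), ℂ)} (hX : ∀ k, (X k).im ≤ -c) :
    mm X = mS X (X_ne hc hX).2 := toC_mS X (X_ne hc hX).2

theorem mm_rel {c : ℝ} (hc : 0 < c) {X : C(UnitAddTorus (Fin d), ℂ)} (hX : ∀ k, (X k).im ≤ -c) :
    (1 - mm X) * (X + ct d Complex.I) = (-(2 * Complex.I)) • mm X ∧
    ((-1 / (2 * Complex.I)) • (X - ct d Complex.I)) * (1 - mm X) = 1 := by
  have hne := (X_ne hc hX).2
  rw [mm_eq hc hX]
  constructor
  · ext k
    have := hne k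
    simp only [mS, ContinuousMap.mul_apply, ContinuousMap.sub_apply, ContinuousMap.one_apply,
      ContinuousMap.add_apply, ContinuousMap.smul_apply, smul_eq_mul, ct,
      ContinuousMap.const_apply, ContinuousMap.coe_mk]
    field_simp
    ring
  · ext k
    have := hne k
    simp only [mS, ContinuousMap.mul_apply, ContinuousMap.sub_apply, ContinuousMap.one_apply,
      ContinuousMap.add_apply, ContinuousMap.smul_apply, smul_eq_mul, ct,
      ContinuousMap.const_apply, ContinuousMap.coe_mk]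
    field_simp
    ring

theorem mm_norm (hx : S_CX) {c : ℝ} (hc : 0 < c) {X : C(UnitAddTorus (Fin d), ℂ)}
    (hX : ∀ k, (X k).im ≤ -c) : ‖mm X‖ < 1 := by
  obtain ⟨q, hq0, hq1, hq⟩ := hx.2.2.1 1 ‖X‖ c hc
  refine lt_of_le_of_lt ?_ hq1
  rw [ContinuousMap.norm_le _ hq0]
  intro k
  have hcont : Continuous fun k => cayx (X k) 0 := by
    have e1 : (fun k => cayx (X k) 0) = fun k => (X k + Complex.I) / (X k - Complex.I) := by
      funext k
      simp [cayx]
    rw [e1]
    exact (X.continuous.add continuous_const).div (X.continuous.sub continuous_const)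
      (X_ne hc hX).2
  have e : mm X k = cayx (X k) 0 := Run7.h83.SD.toC_apply hcont k
  rw [e]
  exact hq _ _ (X.norm_coe_le_norm k) (hX k) (by simp)

theorem GX_mm (ν : Measure ℝ) [IsProbabilityMeasure ν] {c : ℝ} (hc : 0 < c)
    {X : C(UnitAddTorus (Fin d), ℂ)} (hX : ∀ k, (X k).im ≤ -c) :
    GX ν X = (1 / (2 * Complex.I)) • ((mm X - 1) * (1 + (mm X - 1) * csym ν (mm X))) := by
  have hcont : Continuous fun k => cayx (X k) 0 := by
    have e1 : (fun k => cayx (X k) 0) = fun k => (X k + Complex.I) / (X k - Complex.I) := by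
      funext k
      simp [cayx]
    rw [e1]
    exact (X.continuous.add continuous_const).div (X.continuous.sub continuous_const)
      (X_ne hc hX).2
  have e : ∀ k, mm X k = cayx (X k) 0 := fun k => Run7.h83.SD.toC_apply hcont k
  have e1 : (fun k => (cayx (X k) 0 - 1) *
      (1 + (cayx (X k) 0 - 1) * csym ν (toC fun k => cayx (X k) 0) k) / (2 * Complex.I)) =
      fun k => ((1 / (2 * Complex.I)) • ((mm X - 1) * (1 + (mm X - 1) * csym ν (mm X)))) k := by
    funext k
    simp only [ContinuousMap.mul_apply, ContinuousMap.sub_apply, ContinuousMap.one_apply,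
      ContinuousMap.add_apply, ContinuousMap.smul_apply, smul_eq_mul, e]
    unfold mm
    ring
  unfold GX
  rw [e1]
  ext k
  exact Run7.h83.SD.toC_apply (ContinuousMap.continuous _) k

/-- The resolvent of `X + V`. -/
def RX (X : C(UnitAddTorus (Fin d), ℂ)) (v : (Fin d → ℤ) → ℝ) :
    l2 (Fin d → ℤ) →L[ℂ] l2 (Fin d → ℤ) := DD v * (rsv (mm X) v * opr (1 - mm X))

/-- `1 + (X + i) D`. -/
def WX (X : C(UnitAddTorus (Fin d), ℂ)) (v : (Fin d → ℤ) → ℝ) :
    l2 (Fin d → ℤ) →L[ℂ] l2 (Fin d → ℤ) := 1 + opr (X + ct d Complex.I) * DD v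

theorem WX_inv (ho : S_OPR) (hd : S_DIA) (hcs : S_CSYM) (hx : S_CX) {c : ℝ} (hc : 0 < c)
    {X : C(UnitAddTorus (Fin d), ℂ)} (hX : ∀ k, (X k).im ≤ -c) (v : (Fin d → ℤ) → ℝ) :
    WX X v * (rsv (mm X) v * opr (1 - mm X)) = 1 ∧
    (rsv (mm X) v * opr (1 - mm X)) * WX X v = 1 := by
  obtain ⟨-, hr1, hr2⟩ := (hcs (Measure.dirac 0) d (mm X) (mm_norm hx hc hX)).1 v
  obtain ⟨e1, e2⟩ := mm_rel hc hX
  have h1 : opr (1 - mm X) * WX X v = 1 - opr (mm X) * dc v := by
    unfold WX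
    rw [mul_add, mul_one, ← mul_assoc, ← Run7.h83.SD.opr_mul ho, e1, Run7.h83.SD.opr_smul ho,
      Run7.h83.SD.opr_sub ho, Run7.h83.SD.opr_one ho, Run7.h83.SD.dc_eq hd, mul_add, mul_one,
      neg_smul, neg_mul, smul_mul_assoc, mul_smul_comm]
    abel
  have h2 : opr ((-1 / (2 * Complex.I)) • (X - ct d Complex.I)) * opr (1 - mm X) = 1 := by
    rw [← Run7.h83.SD.opr_mul ho, e2, Run7.h83.SD.opr_one ho]
  constructor
  · have h3 : WX X v = opr ((-1 / (2 * Complex.I)) • (X - ct d Complex.I)) *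
        (1 - opr (mm X) * dc v) := by
      rw [← h1, ← mul_assoc, h2, one_mul]
    rw [h3, mul_assoc, ← mul_assoc (1 - opr (mm X) * dc v), hr1, one_mul, h2]
  · rw [mul_assoc, h1, hr2]

/-- The mean of the resolvent. -/
theorem mean_RX (ho : S_OPR) (hd : S_DIA) (hcs : S_CSYM) (hx : S_CX) (ν : Measure ℝ)
    [IsProbabilityMeasure ν] {c : ℝ} (hc : 0 < c)
    {X : C(UnitAddTorus (Fin d), ℂ)} (hX : ∀ k, (X k).im ≤ -c) (u : l2 (Fin d → ℤ))
    (x : Fin d → ℤ) :
    ∫ v, (RX X v u) x ∂(Pn ν (Fin d → ℤ)) = opr (GX ν X) u x := by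
  have hmn := mm_norm hx hc hX
  obtain ⟨hcr, hcm, -⟩ := hcs ν d (mm X) hmn
  set m := mm X with hm
  set C := csym ν m with hC
  set w : l2 (Fin d → ℤ) := opr (1 - m) u with hw
  have hv : ∀ v, (RX X v u) x =
      (1 / (2 * Complex.I)) * ((dc v (rsv m v w)) x - (rsv m v w) x) := by
    intro v
    have h4 : (RX X v u) x = (DD v (rsv m v w)) x := rfl
    rw [h4, Run7.h83.SD.DD_eq hd]
    rfl
  rw [integral_congr_ae (Eventually.of_forall hv), integral_const_mul]
  obtain ⟨hm1, hm2, hi2, hi1⟩ := hcm w x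
  have hb1 : ∀ v, ‖(rsv m v w) x‖ ≤ 1 / (1 - ‖m‖) * ‖w‖ := fun v =>
    (Run7.h83.SD.coord_le _ x).trans ((ContinuousLinearMap.le_opNorm _ _).trans
      (mul_le_mul_of_nonneg_right (hcr v).1 (norm_nonneg _)))
  have hb2 : ∀ v, ‖(dc v (rsv m v w)) x‖ ≤ 1 / (1 - ‖m‖) * ‖w‖ := fun v => by
    rw [Run7.h83.SD.dc_apply hd, norm_mul]
    calc ‖cay (v x)‖ * ‖(rsv m v w) x‖ ≤ 1 * (1 / (1 - ‖m‖) * ‖w‖) :=
          mul_le_mul (Run7.h83.SD.norm_cay _) (hb1 v) (norm_nonneg _) zero_le_one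
      _ = _ := one_mul _
  have hI1 : Integrable (fun v => (rsv m v w) x) (Pn ν (Fin d → ℤ)) :=
    Integrable.of_bound hm1.aestronglyMeasurable _ (Eventually.of_forall hb1)
  have hI2 : Integrable (fun v => (dc v (rsv m v w)) x) (Pn ν (Fin d → ℤ)) :=
    Integrable.of_bound hm2.aestronglyMeasurable _ (Eventually.of_forall hb2)
  rw [integral_sub hI2 hI1, hi2, hi1, GX_mm ν hc hX]
  have h6 : (1 / (2 * Complex.I)) • ((m - 1) * (1 + (m - 1) * C)) =
      (1 / (2 * Complex.I)) • (C - (1 + m * C)) * (1 - m) := by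
    rw [smul_mul_assoc]
    congr 1
    ring
  have h7 : opr ((1 / (2 * Complex.I)) • (C - (1 + m * C)) * (1 - m)) =
      ((1 / (2 * Complex.I)) • (opr C - (1 + opr (m * C)))) * opr (1 - m) := by
    rw [Run7.h83.SD.opr_mul ho, Run7.h83.SD.opr_smul ho, Run7.h83.SD.opr_sub ho,
      Run7.h83.SD.opr_add ho, Run7.h83.SD.opr_one ho]
  rw [← hm, ← hC, h6, h7]
  rfl

/-- Covariance of the resolvent. -/
theorem RX_cov (ho : S_OPR) (hd : S_DIA) (hcs : S_CSYM) (hx : S_CX) {c lam e : ℝ} (hc : 0 < c)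
    (hl : 0 < lam) {X : C(UnitAddTorus (Fin d), ℂ)} (hX : ∀ k, (X k).im ≤ -c)
    (v : (Fin d → ℤ) → ℝ) :
    RX X v = (lam : ℂ) • RX ((lam : ℂ) • (X + ct d e)) fun x => lam * (v x - e) := by
  set X' : C(UnitAddTorus (Fin d), ℂ) := (lam : ℂ) • (X + ct d e) with hX'
  set v' : (Fin d → ℤ) → ℝ := fun x => lam * (v x - e) with hv'
  have hc' : 0 < lam * c := by positivity
  have hXi' : ∀ k, (X' k).im ≤ -(lam * c) := by
    intro k
    have h2 : (X' k).im = lam * (X k).im := by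
      rw [hX']
      simp [ct]
    rw [h2]
    nlinarith [hX k]
  obtain ⟨κ, hκ⟩ : ∃ κ : ℂ, κ = lam * Complex.I - lam * e - Complex.I := ⟨_, rfl⟩
  -- the diagonal operators
  have hD : (lam : ℂ) • DD v' = DD v * (1 - κ • DD v') := by
    ext u x
    have h1 : (((lam : ℂ) • DD v') u) x = lam * (DD v' u x) := rfl
    have h2 : ((DD v * (1 - κ • DD v')) u) x = DD v (u - κ • DD v' u) x := rfl
    have h3 : (u - κ • DD v' u) x = u x - κ * (DD v' u x) := rfl
    rw [h1, h2, Run7.h83.SD.DD_apply hd v (u - κ • DD v' u) x, h3, Run7.h83.SD.DD_apply hd v' u x]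
    have e1 := Run7.h83.SD.den_ne (v x)
    have e2 := Run7.h83.SD.den_ne (v' x)
    have e3 : ((v' x : ℝ) : ℂ) = lam * (v x - e) := by
      rw [hv']
      push_cast
      ring
    unfold dd
    rw [e3] at e2 ⊢
    rw [hκ]
    field_simp
    ring
  have hWW : WX X v * (1 - κ • DD v') = WX X' v' := by
    unfold WX
    have h1 : (1 + opr (X + ct d Complex.I) * DD v) * (1 - κ • DD v') =
        (1 - κ • DD v') + opr (X + ct d Complex.I) * (DD v * (1 - κ • DD v')) := by
      rw [add_mul, one_mul, mul_assoc]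
    rw [h1, ← hD]
    have h2 : opr (X' + ct d Complex.I) = (lam : ℂ) • opr (X + ct d Complex.I) - κ • 1 := by
      have h3 : X' + ct d Complex.I = (lam : ℂ) • (X + ct d Complex.I) - κ • 1 := by
        rw [hX', hκ]
        ext k
        simp only [ContinuousMap.add_apply, ContinuousMap.smul_apply, ContinuousMap.sub_apply,
          ContinuousMap.one_apply, smul_eq_mul, ct, ContinuousMap.const_apply]
        ring
      rw [h3, Run7.h83.SD.opr_sub ho, Run7.h83.SD.opr_smul ho, Run7.h83.SD.opr_smul ho,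
        Run7.h83.SD.opr_one ho]
    rw [h2, sub_mul, smul_mul_assoc, smul_mul_assoc, one_mul, mul_smul_comm]
    abel
  obtain ⟨a1, a2⟩ := WX_inv ho hd hcs hx hc hX v
  obtain ⟨b1, b2⟩ := WX_inv ho hd hcs hx hc' hXi' v'
  have h5 : rsv (mm X) v * opr (1 - mm X) =
      (1 - κ • DD v') * (rsv (mm X') v' * opr (1 - mm X')) := by
    calc rsv (mm X) v * opr (1 - mm X)
        = (rsv (mm X) v * opr (1 - mm X)) * (WX X' v' * (rsv (mm X') v' * opr (1 - mm X'))) := by
          rw [b1, mul_one]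
      _ = ((rsv (mm X) v * opr (1 - mm X)) * WX X v) * (1 - κ • DD v') *
            (rsv (mm X') v' * opr (1 - mm X')) := by
          rw [← hWW]
          simp only [mul_assoc]
      _ = (1 - κ • DD v') * (rsv (mm X') v' * opr (1 - mm X')) := by
          rw [a2, one_mul]
  unfold RX
  rw [h5, ← mul_assoc, ← hD, smul_mul_assoc]

/-- AFC. -/
theorem t_AFC (ho : S_OPR) (hd : S_DIA) (hs : S_SYMB) (hcs : S_CSYM) (hx : S_CX) : S_AFC := by
  intro ν _ d c lam e X _ hc hX hl k
  set X' : C(UnitAddTorus (Fin d), ℂ) := (lam : ℂ) • (X + ct d e) with hX'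
  have hc' : 0 < lam * c := by positivity
  have hXi' : ∀ k, (X' k).im ≤ -(lam * c) := by
    intro k
    have h2 : (X' k).im = lam * (X k).im := by
      rw [hX']
      simp [ct]
    rw [h2]
    nlinarith [hX k]
  have hm : Measurable fun v : ℝ => lam * (v - e) := by fun_prop
  have hPn : (Pn ν (Fin d → ℤ)).map (fun (v : (Fin d → ℤ) → ℝ) x => lam * (v x - e)) =
      Pn (ν.map fun v => lam * (v - e)) (Fin d → ℤ) := by
    unfold Pn
    exact Measure.infinitePi_map_pi (μ := fun _ : Fin d → ℤ => ν)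
      (f := fun _ => fun v : ℝ => lam * (v - e)) fun _ => hm
  have hmm : MeasurableEmbedding fun (v : (Fin d → ℤ) → ℝ) (x : Fin d → ℤ) => lam * (v x - e) := by
    have h6 : (fun (v : (Fin d → ℤ) → ℝ) (x : Fin d → ℤ) => lam * (v x - e)) =
        MeasurableEquiv.piCongrRight (fun _ : Fin d → ℤ =>
          ((MeasurableEquiv.subRight e).trans
            (Homeomorph.mulLeft₀ lam hl.ne').toMeasurableEquiv)) := rfl
    rw [h6]
    exact MeasurableEquiv.measurableEmbedding _
  have hop : opr (GX ν X) = (lam : ℂ) • opr (GX (ν.map fun v => lam * (v - e)) X') := by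
    ext u x
    have h1 : (((lam : ℂ) • opr (GX (ν.map fun v => lam * (v - e)) X')) u) x =
        lam * (opr (GX (ν.map fun v => lam * (v - e)) X') u x) := rfl
    rw [h1, ← mean_RX ho hd hcs hx ν hc hX u x,
      ← mean_RX ho hd hcs hx (ν.map fun v => lam * (v - e)) hc' hXi' u x, ← hPn,
      hmm.integral_map, ← integral_const_mul]
    refine integral_congr_ae (Eventually.of_forall fun v => ?_)
    show (RX X v u) x = _
    rw [RX_cov ho hd hcs hx hc hl hX v]
    rfl
  have h8 : GX ν X - (lam : ℂ) • GX (ν.map fun v => lam * (v - e)) X' = 0 := by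
    rw [← norm_eq_zero, ← (hs d).2.1, Run7.h83.SD.opr_sub ho, Run7.h83.SD.opr_smul ho, hop, sub_self,
      norm_zero]
  have h9 := congrArg (fun f : C(UnitAddTorus (Fin d), ℂ) => f k) (sub_eq_zero.1 h8)
  exact h9

end

end Pool.Agent.Run7.h47.SD
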