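import Pool.Agent.Run7.h47.SD.Gap
import Pool.Agent.Run7.h305.SD.ANA
import Pool.Agent.Run7.h305.SD.ANC
import Pool.Agent.Run7.h361.SD.MOMG
import Pool.Agent.Run7.h704.SD.KER
import Pool.Agent.Run7.h712.SD.FIN
import Pool.Agent.Run7.h83.SD.RES
import Pool.Agent.Run7.h888.SD.BETW
import Pool.Agent.Run7.h888.SD.MOMU
import Pool.Agent.Run7.h888.SD.ZCL
import Pool.Agent.Run7.h921.SD.PRD
import Pool.Agent.Run7.h921.SD.PSG
import Pool.Agent.N659.HB.AllG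

/-!
# Project SD: assembly
-/

set_option autoImplicit false

namespace Pool.Agent.Run7.h47.SD

open Pool.Agent.W792.LL Pool.Agent.W792.WA Pool.Agent.N659.HB

theorem ana : S_ANA :=
  Run7.h305.SDA.t_ANA
    (Pool.Agent.Run7.h704.SD.t_KER Pool.Agent.W792.WA.Al.opr Pool.Agent.W792.WA.Al.dia
      Pool.Agent.Run7.h921.SD.t_PRD)
    Run7.h83.SD.t_RES (Run7.h305.SD.t_ANC Pool.Agent.W792.WA.Al.holc Pool.Agent.W792.WA.Al.cx)

theorem gap : S_GAPSD :=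
  t_GAP Pool.Agent.Run7.h888.SD.t_WAL Pool.Agent.Run7.h888.SD.t_BETW
    Pool.Agent.Run7.h888.SD.t_ZCL ana
    (Pool.Agent.Run7.h921.SD.t_PSG Pool.Agent.W792.WA.Al.psi Pool.Agent.W792.WA.Al.cx)
    Pool.Agent.N659.HB.Al.ux Pool.Agent.W792.WA.Al.cx Pool.Agent.W792.WA.Al.fix

/-- **The theorem of the project SD.** -/
theorem sdT : S_FINSD :=
  Pool.Agent.Run7.h712.SD.t_FIN gap Pool.Agent.Run7.h888.SD.t_WAL Pool.Agent.N659.HB.Al.chk
    Pool.Agent.W792.WA.Al.aeqk Pool.Agent.W792.WA.Al.aff WSP.main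
    (Pool.Agent.W792.WA.Al.exists_lv Pool.Agent.W915.WA.WH.main Pool.Agent.W332.WA.WB.main
      Pool.Agent.W792.WA.Al.wd)

end Pool.Agent.Run7.h47.SD
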