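import Pool.Agent.Run7.h47.SD.Iface

/-!
# Project SD: assembly, for any kinetic energy in the Wiener algebra
-/

set_option autoImplicit false

namespace Pool.Agent.Run7.h47.SD

open MeasureTheory Filter Pool.Agent.W792.LL Pool.Agent.W792.WA Pool.Agent.N659.HB
open ProbabilityTheory
open scoped Topology ENNReal

noncomputable section

/-- The theorem for any kinetic energy in the Wiener algebra. -/
def S_FINK : Prop :=
  ∀ (ν₀ : Measure ℝ) [IsProbabilityMeasure ν₀], Adm ν₀ → ∃ C : ℝ, 0 < C ∧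
    ∀ (d : ℕ) (K : C(UnitAddTorus (Fin d), ℝ)) (B a sg ε : ℝ), 0 < d → Wn (cR K) B → 0 < a →
      C * (B + a) ≤ sg → 0 < ε →
      ∃ b : C(ℝ, ℝ), (∀ t, |b t| ≤ ε) ∧
        (∀ x : Fin d → ℤ,
          ‖UnitAddTorus.mFourierCoeff (fun k : UnitAddTorus (Fin d) =>
            ((b (lap d k) : ℝ) : ℂ)) x‖ ≤ ε / (1 + ‖x‖) ^ ((d : ℝ) / 3)) ∧
        ∀ᵐ v ∂(Pn ν₀ (Fin d → ℤ)), ACIK (K + gK b d) sg v (-a) a

/-- The symbol of the scaled kinetic energy minus the energy. -/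
theorem kz_eq {d : ℕ} (K : C(UnitAddTorus (Fin d), ℝ)) (γ a : ℝ) (z : ℂ) :
    (toC (fun k => ((((γ • (K - ContinuousMap.const _ (-a)) : C(UnitAddTorus (Fin d), ℝ)) k : ℝ)
      : ℂ) - z)) : C(UnitAddTorus (Fin d), ℂ)) = (γ : ℂ) • (cR K + ct d a) + ct d (-z) := by
  have hc : Continuous fun k => (K k : ℂ) := Complex.continuous_ofReal.comp K.continuous
  have hc2 : Continuous (fun k =>
      ((((γ • (K - ContinuousMap.const _ (-a)) : C(UnitAddTorus (Fin d), ℝ)) k : ℝ) : ℂ) - z)) := by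
    fun_prop
  unfold cR toC
  rw [dif_pos hc2, dif_pos hc]
  ext k
  simp only [ContinuousMap.coe_mk, ContinuousMap.add_apply, ContinuousMap.smul_apply,
    ContinuousMap.sub_apply, ContinuousMap.const_apply, ct, smul_eq_mul]
  push_cast
  ring

theorem wn_kz (hWA : S_WAL) {d : ℕ} {K : C(UnitAddTorus (Fin d), ℝ)} {B γ a : ℝ} (hγ : 0 < γ)
    (ha : 0 < a) (hKB : Wn (cR K) B) {z : ℂ} (hz : z ∈ Zs d) :
    Wn (toC (fun k => ((((γ • (K - ContinuousMap.const _ (-a)) : C(UnitAddTorus (Fin d), ℝ)) k : ℝ)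
      : ℂ) - z)) : C(UnitAddTorus (Fin d), ℂ)) (γ * (B + a) + (4 * d + 1)) := by
  obtain ⟨hz1, hz2, hz3, hz4⟩ := hz
  obtain ⟨w1, w2, w3, -⟩ := hWA d
  rw [kz_eq]
  have h := w3 _ _ _ _ (w2 _ (γ : ℂ) _ (w3 _ _ _ _ hKB (w1 (a : ℂ)))) (w1 (-z))
  intro F
  refine (h F).trans ?_
  rw [Complex.norm_real, Complex.norm_real, Real.norm_of_nonneg hγ.le,
    Real.norm_of_nonneg ha.le, norm_neg]
  have hzn : ‖z‖ ≤ 4 * d + 1 := by
    refine (Complex.norm_le_abs_re_add_abs_im z).trans ?_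
    rw [abs_of_nonneg hz1, abs_of_pos hz3]
    linarith
  linarith

theorem num {C₀ κ B a sg γ d : ℝ} (hC₀ : 0 < C₀) (hκ : 0 < κ) (hB : 0 ≤ B) (ha : 0 < a)
    (hd : 1 ≤ d) (hγ : γ = 2 * d / a) (hsg : (6 * C₀ / κ + 1) * (B + a) ≤ sg) :
    0 < sg ∧ 1 ≤ γ * sg ∧ C₀ / (γ * sg) * ((γ * (B + a) + (4 * d + 1)) + 2) ≤ κ := by
  have hd0 : 0 < d := by linarith
  have hγ0 : 0 < γ := by rw [hγ]; positivity
  have hγa : γ * a = 2 * d := by rw [hγ]; field_simp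
  have hsg1 : B + a ≤ sg := by
    have h0 : 0 ≤ 6 * C₀ / κ * (B + a) := by positivity
    linarith
  have hsg0 : 0 < sg := by linarith
  refine ⟨hsg0, ?_, ?_⟩
  · have h2 : γ * a ≤ γ * sg := mul_le_mul_of_nonneg_left (by linarith) hγ0.le
    linarith
  have h1 : (γ * (B + a) + (4 * d + 1)) + 2 ≤ γ * (6 * (B + a)) := by
    have h3 : 0 ≤ γ * B := by positivity
    have h5 : γ * (6 * (B + a)) = 6 * (γ * B) + 6 * (γ * a) := by ring
    have h6 : γ * (B + a) = γ * B + γ * a := by ring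
    rw [h5, h6, hγa]
    linarith
  have h4 : C₀ * (6 * (B + a)) ≤ κ * sg := by
    have h5 : (6 * C₀ / κ) * (B + a) ≤ sg := by linarith
    have h6 : κ * ((6 * C₀ / κ) * (B + a)) ≤ κ * sg := mul_le_mul_of_nonneg_left h5 hκ.le
    have h7 : κ * ((6 * C₀ / κ) * (B + a)) = C₀ * (6 * (B + a)) := by field_simp
    linarith
  calc C₀ / (γ * sg) * ((γ * (B + a) + (4 * d + 1)) + 2)
      ≤ C₀ / (γ * sg) * (γ * (6 * (B + a))) := mul_le_mul_of_nonneg_left h1 (by positivity)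
    _ = C₀ * (6 * (B + a)) / sg := by field_simp
    _ ≤ κ := by
        rw [div_le_iff₀ hsg0]
        exact h4

theorem lex {ε Cd γ : ℝ} (hε : 0 < ε) (hCd : 0 < Cd) (hγ : 0 < γ) :
    ∃ l : ℝ, 0 < l ∧ 2 * l ≤ ε ∧ 2 * l * Cd ≤ ε ∧ γ * l ≤ 1 / 4 := by
  refine ⟨min (min (ε / 2) (ε / (2 * Cd))) (1 / (4 * γ)), by positivity, ?_, ?_, ?_⟩
  · have := (min_le_left (min (ε / 2) (ε / (2 * Cd))) (1 / (4 * γ))).trans (min_le_left _ _)
    linarith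
  · have h := (min_le_left (min (ε / 2) (ε / (2 * Cd))) (1 / (4 * γ))).trans (min_le_right _ _)
    rw [le_div_iff₀ (by positivity)] at h
    linarith
  · have h := min_le_right (min (ε / 2) (ε / (2 * Cd))) (1 / (4 * γ))
    rw [le_div_iff₀ (by positivity)] at h
    linarith

/-- FINK. -/
theorem t_FINK (hWA : S_WAL) (hG : S_GAPSD) (hC : S_CHK) (hAe : S_AEQK) (hAf : S_AFF) (hW : S_WS)
    (hψ : ∃ ψ : C(UnitAddCircle, ℝ), IsSemi ψ ∧ ∀ d : ℕ, 0 < d → ∃ C : ℝ, 0 < C ∧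
      ∀ (M : ℕ) (x : Fin d → ℤ),
      ‖UnitAddTorus.mFourierCoeff (fun k : UnitAddTorus (Fin d) =>
        ((ψ ((M * lap d k / (2 * Real.pi) : ℝ) : UnitAddCircle) : ℝ) : ℂ)) x‖
        ≤ C / (1 + ‖x‖) ^ ((d : ℝ) / 3)) : S_FINK := by
  intro ν₀ _ hAdm
  obtain ⟨C₀, C₁, hC₀, hC₁, hML⟩ := hAdm
  obtain ⟨κ, hκ, hgap⟩ := hG C₁ hC₁
  obtain ⟨ψ, hψ1, hψ2⟩ := hψ
  refine ⟨6 * C₀ / κ + 1, by positivity, ?_⟩
  intro d K B a sg ε hd hKB ha hsg hε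
  have hB0 : 0 ≤ B := by simpa using hKB ∅
  have hd1 : (1 : ℝ) ≤ d := by exact_mod_cast hd
  have hd0 : (0 : ℝ) < d := by linarith
  obtain ⟨Cd, hCd, hCd1⟩ := hψ2 d hd
  obtain ⟨γ, hγd⟩ : ∃ γ : ℝ, γ = 2 * d / a := ⟨_, rfl⟩
  have hγ : 0 < γ := by rw [hγd]; positivity
  obtain ⟨hsg0, hgs1, hAβ⟩ := num hC₀ hκ hB0 ha hd1 hγd hsg
  obtain ⟨l, hl0, hl1, hl2, hl3⟩ := lex hε hCd hγ
  have hm2 : Measurable fun x : ℝ => (γ * sg) * x := by fun_prop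
  have hP2 : IsProbabilityMeasure (ν₀.map fun x => (γ * sg) * x) :=
    Measure.isProbabilityMeasure_map hm2.aemeasurable
  obtain ⟨hvr, g, hg, hgap1⟩ := hgap ψ hψ1 (ν₀.map fun x => (γ * sg) * x) d (C₀ / (γ * sg))
    (γ * (B + a) + (4 * d + 1)) (γ * l) (γ • (K - ContinuousMap.const _ (-a))) hd
    (hML (γ * sg) hgs1) (by positivity) hl3 (by positivity)
    (fun z hz => wn_kz hWA hγ ha hKB hz) hAβ
  obtain ⟨b, hb1, hb2⟩ := of_gapK hC hAe hAf hψ1 hd K ν₀ γ sg l (-a) hγ hsg0 hl0 hvr hg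
    (fun ρ' _ hρ z hz s hs => hgap1 ρ' hρ z hz s hs)
  refine ⟨b, fun t => ?_, fun x => ?_, ?_⟩
  · exact (G16.IsSum.bound hψ1.bound hb1 _).trans hl1
  · refine (hW d ψ Cd (2 * l) b hd hCd.le (by positivity) hCd1 hb1 x).trans ?_
    gcongr
  · have e3 : -a + 4 * d / γ = a := by
      rw [hγd]; field_simp; ring
    rw [e3] at hb2
    exact hb2

end

end Pool.Agent.Run7.h47.SD
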