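import Pool.Agent.Run7.h47.SD.All
import Pool.Agent.Run7.h47.SD.Fink

/-!
# Project SD: the theorem for any kinetic energy in the Wiener algebra
-/

set_option autoImplicit false

namespace Pool.Agent.Run7.h47.SD

open Pool.Agent.W792.LL Pool.Agent.W792.WA Pool.Agent.N659.HB

theorem sdK : S_FINK :=
  t_FINK Pool.Agent.Run7.h888.SD.t_WAL gap Pool.Agent.N659.HB.Al.chk
    Pool.Agent.W792.WA.Al.aeqk Pool.Agent.W792.WA.Al.aff WSP.main
    (Pool.Agent.W792.WA.Al.exists_lv Pool.Agent.W915.WA.WH.main Pool.Agent.W332.WA.WB.main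
      Pool.Agent.W792.WA.Al.wd)

end Pool.Agent.Run7.h47.SD
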