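import Pool.Agent.Run7.h47.SD.Iface2
import Pool.Agent.Run7.h47.SD.Fink

/-!
# Project SD, stage 2: assembly
-/

set_option autoImplicit false

namespace Pool.Agent.Run7.h47.SD

open MeasureTheory Filter Pool.Agent.W792.LL Pool.Agent.W792.WA Pool.Agent.N659.HB
open ProbabilityTheory
open scoped Topology ENNReal

noncomputable section

/-- The scaled symbol at the energy. -/
theorem wn_kb (hWA : S_WAL) {d : ℕ} {K : C(UnitAddTorus (Fin d), ℝ)} {B γ a lam : ℝ} (hγ : 0 < γ)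
    (hl : 0 < lam) (hKB : Wn (cR K) B) {z : ℂ} (hz : 0 ≤ z.im) (hz1 : z.im ≤ 1 / lam) :
    Wn (toC (fun k => (lam : ℂ) *
      (((((γ • (K - ContinuousMap.const _ (-a)) : C(UnitAddTorus (Fin d), ℝ)) k : ℝ) : ℂ) - z)
        + ((z.re - γ * a : ℝ) : ℂ))) : C(UnitAddTorus (Fin d), ℂ)) (lam * γ * B + 1) := by
  obtain ⟨w1, w2, w3, -⟩ := hWA d
  have hc : Continuous fun k => (K k : ℂ) := Complex.continuous_ofReal.comp K.continuous
  have hc2 : Continuous (fun k => (lam : ℂ) *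
      (((((γ • (K - ContinuousMap.const _ (-a)) : C(UnitAddTorus (Fin d), ℝ)) k : ℝ) : ℂ) - z)
        + ((z.re - γ * a : ℝ) : ℂ))) := by
    fun_prop
  have e : (toC (fun k => (lam : ℂ) *
      (((((γ • (K - ContinuousMap.const _ (-a)) : C(UnitAddTorus (Fin d), ℝ)) k : ℝ) : ℂ) - z)
        + ((z.re - γ * a : ℝ) : ℂ))) : C(UnitAddTorus (Fin d), ℂ)) =
      ((lam * γ : ℝ) : ℂ) • cR K + ct d (-((lam * z.im : ℝ) : ℂ) * Complex.I) := by
    unfold cR toC
    rw [dif_pos hc2, dif_pos hc]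
    ext k
    have hzz : z = (z.re : ℂ) + (z.im : ℂ) * Complex.I := (Complex.re_add_im z).symm
    simp only [ContinuousMap.coe_mk, ContinuousMap.add_apply, ContinuousMap.smul_apply,
      ContinuousMap.sub_apply, ContinuousMap.const_apply, ct, smul_eq_mul]
    push_cast
    linear_combination (-(lam : ℂ)) * hzz
  rw [e]
  have h := w3 _ _ _ _ (w2 _ ((lam * γ : ℝ) : ℂ) _ hKB)
    (w1 (-((lam * z.im : ℝ) : ℂ) * Complex.I))
  intro F
  refine (h F).trans ?_
  rw [norm_mul, norm_neg, Complex.norm_I, Complex.norm_real, Complex.norm_real,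
    Real.norm_of_nonneg (by positivity), Real.norm_of_nonneg (by positivity)]
  have h1 : lam * z.im ≤ 1 := by
    rw [le_div_iff₀ hl] at hz1
    linarith
  linarith

theorem num2 {C₀ κ B T sg M : ℝ} (hC₀ : 0 < C₀) (hκ : 0 < κ) (hB : 0 ≤ B)
    (hsg0 : 0 < sg) (hM : M = 6 * C₀ / κ + 1) (hsg : 2 * C₀ / κ * B ≤ sg) :
    1 ≤ M ∧ C₀ / M * ((M * B / sg + 1) + 2) ≤ κ := by
  have hM0 : 0 < M := by rw [hM]; positivity
  have h1 : 1 ≤ M := by
    rw [hM]
    have : 0 < 6 * C₀ / κ := by positivity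
    linarith
  refine ⟨h1, ?_⟩
  have h2 : C₀ / M * ((M * B / sg + 1) + 2) = C₀ * B / sg + 3 * C₀ / M := by
    field_simp
    ring
  rw [h2]
  have h3 : C₀ * B / sg ≤ κ / 2 := by
    rw [div_le_iff₀ hsg0]
    have h4 : κ / 2 * (2 * C₀ / κ * B) ≤ κ / 2 * sg := mul_le_mul_of_nonneg_left hsg (by positivity)
    have h5 : κ / 2 * (2 * C₀ / κ * B) = C₀ * B := by field_simp
    linarith
  have h6 : 3 * C₀ / M ≤ κ / 2 := by
    rw [div_le_iff₀ hM0, hM]
    have h7 : κ / 2 * (6 * C₀ / κ + 1) = 3 * C₀ + κ / 2 := by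
      field_simp
      ring
    rw [h7]
    linarith
  linarith

/-- FINB. -/
theorem t_FINB (hWA : S_WAL) (hG : S_GAPB) (hC : S_CHK) (hAe : S_AEQK) (hAf : S_AFF) (hW : S_WS)
    (hCay : S_CAY)
    (hψ : ∃ ψ : C(UnitAddCircle, ℝ), IsSemi ψ ∧ ∀ d : ℕ, 0 < d → ∃ C : ℝ, 0 < C ∧
      ∀ (M : ℕ) (x : Fin d → ℤ),
      ‖UnitAddTorus.mFourierCoeff (fun k : UnitAddTorus (Fin d) =>
        ((ψ ((M * lap d k / (2 * Real.pi) : ℝ) : UnitAddCircle) : ℝ) : ℂ)) x‖
        ≤ C / (1 + ‖x‖) ^ ((d : ℝ) / 3)) : S_FINB := by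
  intro ν₀ _ T hT hat hAdm
  obtain ⟨C₀, C₁, hC₀, hC₁, hML⟩ := hAdm
  obtain ⟨κ, hκ, hgap⟩ := hG C₁ hC₁
  obtain ⟨ψ, hψ1, hψ2⟩ := hψ
  obtain ⟨M, hM⟩ : ∃ M : ℝ, M = 6 * C₀ / κ + 1 := ⟨_, rfl⟩
  refine ⟨2 * C₀ / κ, by positivity, ?_⟩
  intro d K B sg ε hd hKB hsg0 hsg hε
  have hB0 : 0 ≤ B := by simpa using hKB ∅
  have hd1 : (1 : ℝ) ≤ d := by exact_mod_cast hd
  have hd0 : (0 : ℝ) < d := by linarith
  obtain ⟨Cd, hCd, hCd1⟩ := hψ2 d hd
  obtain ⟨hM1, hAβ⟩ := num2 (T := T) hC₀ hκ hB0 hsg0 hM hsg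
  have hM0 : 0 < M := by linarith
  obtain ⟨a, haT⟩ : ∃ a : ℝ, a = T * sg := ⟨_, rfl⟩
  have ha : 0 < a := by rw [haT]; positivity
  obtain ⟨γ, hγd⟩ : ∃ γ : ℝ, γ = 2 * d / a := ⟨_, rfl⟩
  have hγ : 0 < γ := by rw [hγd]; positivity
  have hγa : γ * a = 2 * d := by rw [hγd]; field_simp
  have hgs : 0 < γ * sg := by positivity
  obtain ⟨lam, hlam⟩ : ∃ lam : ℝ, lam = M / (γ * sg) := ⟨_, rfl⟩
  have hlam0 : 0 < lam := by rw [hlam]; positivity
  have hlgs : lam * (γ * sg) = M := by rw [hlam]; field_simp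
  have hl0 : ∃ l : ℝ, 0 < l ∧ 2 * l ≤ ε ∧ 2 * l * Cd ≤ ε ∧ (lam * γ) * l ≤ 1 / 4 :=
    lex hε hCd (mul_pos hlam0 hγ)
  obtain ⟨l, hl0, hl1, hl2, hl3⟩ := hl0
  have hm2 : Measurable fun x : ℝ => (γ * sg) * x := by fun_prop
  have hP2 : IsProbabilityMeasure (ν₀.map fun x => (γ * sg) * x) :=
    Measure.isProbabilityMeasure_map hm2.aemeasurable
  have hvr : 0 < vr (ν₀.map fun x => (γ * sg) * x) := by
    refine Ch.vr_pos hCay _ fun x => ?_
    rw [Measure.map_apply hm2 (measurableSet_singleton x)]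
    have e : (fun x : ℝ => (γ * sg) * x) ⁻¹' {x} = {x / (γ * sg)} := by
      ext y
      simp only [Set.mem_preimage, Set.mem_singleton_iff]
      rw [eq_div_iff hgs.ne', mul_comm]
    rw [e]
    exact hat _
  obtain ⟨g, hg, hgap1⟩ := hgap ψ hψ1 (ν₀.map fun x => (γ * sg) * x) d (C₀ / M)
    (M * B / sg + 1) (γ * l) lam (2 * d) (1 / lam) (γ • (K - ContinuousMap.const _ (-a))) hd
    hvr (by positivity) hlam0 (by positivity) (by positivity) (by
      have : lam * (γ * l) = (lam * γ) * l := by ring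
      rw [this]
      exact hl3) (by positivity) hAβ (by
      intro z hz hzi
      obtain ⟨hz1, hz2, hz3, hz4⟩ := hz
      have he : |z.re - γ * a| ≤ 2 * d := by
        rw [hγa, abs_le]
        constructor <;> linarith
      refine ⟨z.re - γ * a, he, ?_, ?_⟩
      · have hm3 : Measurable fun v : ℝ => lam * (v - (z.re - γ * a)) := by fun_prop
        rw [Measure.map_map hm3 hm2]
        have e : ((fun v : ℝ => lam * (v - (z.re - γ * a))) ∘ fun x : ℝ => (γ * sg) * x) =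
            fun x : ℝ => M * x - lam * (z.re - γ * a) := by
          funext x
          simp only [Function.comp_apply]
          rw [← hlgs]
          ring
        rw [e]
        refine hML M _ hM1 ?_
        rw [abs_mul, abs_of_pos hlam0]
        calc lam * |z.re - γ * a| ≤ lam * (2 * d) := mul_le_mul_of_nonneg_left he hlam0.le
          _ = lam * (γ * a) := by rw [hγa]
          _ = T * M := by
              rw [haT, ← hlgs]
              ring
      · have h := wn_kb hWA (a := a) hγ hlam0 hKB hz3.le hzi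
        have e : lam * γ * B = M * B / sg := by
          rw [hlam]
          field_simp
        rw [e] at h
        exact h)
  obtain ⟨b, hb1, hb2⟩ := of_gapK hC hAe hAf hψ1 hd K ν₀ γ sg l (-a) hγ hsg0 hl0 hvr hg
    (fun ρ' _ hρ z hz s hs => hgap1 ρ' hρ z hz s hs)
  refine ⟨b, fun t => ?_, fun x => ?_, ?_⟩
  · exact (G16.IsSum.bound hψ1.bound hb1 _).trans hl1
  · refine (hW d ψ Cd (2 * l) b hd hCd.le (by positivity) hCd1 hb1 x).trans ?_
    gcongr
  · have e3 : -a + 4 * d / γ = a := by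
      rw [hγd]; field_simp; ring
    rw [e3, haT] at hb2
    exact hb2

end

end Pool.Agent.Run7.h47.SD
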