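import Pool.Agent.Run7.h47.SD.Iface
import Pool.Agent.N163.HB.Gapa

/-!
# Project SD: the gap
-/

set_option autoImplicit false

namespace Pool.Agent.Run7.h47.SD

open MeasureTheory Filter Pool.Agent.W792.LL Pool.Agent.W792.WA Pool.Agent.N659.HB
open Pool.Agent.N163.HB.GAPA ProbabilityTheory
open scoped Topology ENNReal

noncomputable section

theorem Wn.mono {d : ℕ} {f : C(UnitAddTorus (Fin d), ℂ)} {β γ : ℝ} (h : Wn f β) (hb : β ≤ γ) :
    Wn f γ := fun F => (h F).trans hb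

theorem Wn.nonneg {d : ℕ} {f : C(UnitAddTorus (Fin d), ℂ)} {β : ℝ} (h : Wn f β) : 0 ≤ β := by
  simpa using h ∅

theorem dd_norm (v : ℝ) : ‖dd v‖ ≤ 1 := by
  unfold dd
  rw [norm_div, norm_one]
  have h : 1 ≤ ‖(v : ℂ) - Complex.I‖ := by
    have := Complex.abs_im_le_norm ((v : ℂ) - Complex.I)
    simpa using this
  rw [div_le_one (by linarith)]
  exact h

theorem dd_cont : Continuous dd := by
  unfold dd
  refine continuous_const.div (by fun_prop) fun v h => ?_
  have := congrArg Complex.im h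
  simp at this

theorem dd_int (ν : Measure ℝ) [IsProbabilityMeasure ν] : Integrable dd ν :=
  Integrable.of_bound dd_cont.aestronglyMeasurable 1 (Eventually.of_forall dd_norm)

theorem cay_dd (v : ℝ) : cay v = 1 + 2 * Complex.I * dd v := by
  unfold cay dd
  have h : (v : ℂ) - Complex.I ≠ 0 := by
    intro h
    have := congrArg Complex.im h
    simp at this
  field_simp
  ring

/-- The law is not a point mass. -/
theorem vr_pos (ν : Measure ℝ) [IsProbabilityMeasure ν] {A C₁ : ℝ} (h : ML ν A C₁)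
    (hA : A * C₁ < 1) : 0 < vr ν := by
  obtain ⟨h1, h2, h3, h4⟩ := h
  obtain ⟨g, hg⟩ : ∃ g, g = ∫ v, dd v ∂ν := ⟨_, rfl⟩
  have h5 := h3 1 le_rfl
  simp only [pow_one] at h5
  rw [← hg] at h4 h5
  have e : ∫ v, cay v ∂ν = 1 + 2 * Complex.I * g := by
    simp_rw [cay_dd]
    rw [integral_add (integrable_const _) ((dd_int ν).const_mul _), integral_const_mul, ← hg]
    simp
  unfold vr
  rw [e, ← Complex.normSq_eq_norm_sq, Complex.normSq_apply]
  have h6 : g.re * g.re + g.im * g.im ≤ A ^ 2 := by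
    have := Complex.normSq_eq_norm_sq g
    rw [Complex.normSq_apply] at this
    rw [this]
    exact pow_le_pow_left₀ (norm_nonneg _) h5 2
  have h7 : A ^ 2 < A / C₁ := by
    rw [lt_div_iff₀ (by linarith)]
    nlinarith
  simp
  nlinarith

set_option maxHeartbeats 4000000 in
/-- GAP. -/
theorem t_GAP (hW : S_WAL) (hB : S_BETW) (hZ : S_ZCL) (hA : S_ANA) (hP : S_PSG) (hUX : S_UX)
    (hCX : S_CX) (hFIX : S_FIX) : S_GAPSD := by
  intro C₁ hC₁
  have hC0 : 0 < C₁ := by linarith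
  refine ⟨1 / (16 * C₁ ^ 3), by positivity, ?_⟩
  intro ψ hψ ν _ d A β r K hd hML hr hr4 hβ hK hκ
  obtain ⟨w1, w2, w3, w4, w5, w6, -⟩ := hW d
  have hA0 := hML.pos
  have hlow := hML.low
  have hmom := hML.mom 1 le_rfl
  simp only [pow_one] at hmom
  have hC3 : 8 ≤ C₁ ^ 3 := by nlinarith [sq_nonneg (C₁ - 2)]
  have hκ' : A * (β + 2) * (16 * C₁ ^ 3) ≤ 1 := by
    rw [le_div_iff₀ (by positivity)] at hκ
    exact hκ
  have hq128 : A * (β + 2) ≤ 1 / 128 := by
    have : 0 ≤ A * (β + 2) := by positivity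
    nlinarith
  have hAC : A * C₁ < 1 := by
    have h1 : A * 2 ≤ A * (β + 2) := by nlinarith
    have h2 : A * (β + 2) * (16 * C₁ ^ 3) = A * (β + 2) * C₁ * (16 * C₁ ^ 2) := by ring
    have h3 : A * 2 * C₁ ≤ A * (β + 2) * C₁ := by nlinarith
    have h4 : 64 ≤ 16 * C₁ ^ 2 := by nlinarith
    have h5 : 0 ≤ A * (β + 2) * C₁ := by positivity
    nlinarith
  have hvr : 0 < vr ν := vr_pos ν hML hAC
  refine ⟨hvr, ?_⟩
  obtain ⟨g, hg⟩ : ∃ g, g = ∫ v, dd v ∂ν := ⟨_, rfl⟩
  rw [← hg] at hlow hmom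
  have hgim : 0 < g.im := lt_of_lt_of_le (by positivity) hlow
  have hg0 : g ≠ 0 := by
    intro h
    rw [h] at hgim
    simp at hgim
  have hgn : 0 < ‖g‖ := norm_pos_iff.2 hg0
  have hglow : A / C₁ ≤ ‖g‖ := hlow.trans ((le_abs_self _).trans (Complex.abs_im_le_norm g))
  obtain ⟨η, hη⟩ : ∃ η : ℝ, η = 1 / (2 * C₁ * A) := ⟨_, rfl⟩
  have hη0 : 0 < η := by rw [hη]; positivity
  have hAη : A * η = 1 / (2 * C₁) := by rw [hη]; field_simp
  obtain ⟨w₀, hw₀⟩ : ∃ w₀ : ℂ, w₀ = 1 / g := ⟨_, rfl⟩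
  have hw₀g : w₀ * g = 1 := by rw [hw₀]; field_simp
  have hw₀n : ‖w₀‖ * A ≤ C₁ := by
    rw [hw₀, norm_div, norm_one, one_div, ← div_eq_inv_mul, div_le_iff₀ hgn]
    rw [div_le_iff₀ hC0] at hglow
    linarith
  have hw₀i : w₀.im ≤ -2 * η := by
    rw [hw₀, one_div, Complex.inv_im, hη]
    have h1 : Complex.normSq g ≤ A ^ 2 := by
      rw [Complex.normSq_eq_norm_sq]
      exact pow_le_pow_left₀ (norm_nonneg _) hmom 2
    have h2 : 0 < Complex.normSq g := Complex.normSq_pos.2 hg0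
    have h3 : 1 / (C₁ * A) ≤ g.im / Complex.normSq g := by
      rw [le_div_iff₀ h2]
      calc 1 / (C₁ * A) * Complex.normSq g ≤ 1 / (C₁ * A) * A ^ 2 :=
            mul_le_mul_of_nonneg_left h1 (by positivity)
        _ = A / C₁ := by field_simp
        _ ≤ g.im := hlow
    have h4 : 2 * (1 / (2 * C₁ * A)) = 1 / (C₁ * A) := by field_simp
    rw [neg_div]
    linarith
  obtain ⟨z1, z2, z3, gz, hgz, z4⟩ := hZ d w₀ η hη0 hw₀i
  refine ⟨gz, hgz, ?_⟩
  intro ρ' _ hρ' z hz s hs0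
  suffices h : s ∈ ZW d w₀ η from z4 s h
  have hzK := hK z hz
  obtain ⟨hz1, hz2, hz3, hz4⟩ := hz
  have hprob : IsProbabilityMeasure (lev ψ r) := lev_prob ψ _
  have hsupp : ((lev ψ r).conv ρ') (Set.Icc (-(r + r / 8)) (r + r / 8))ᶜ = 0 :=
    conv_supp _ _ (lev_supp hψ hr) hρ'
  obtain ⟨q0, hq0, hq1, hq⟩ := hCX.2.2.1 (r + r / 8) (‖K‖ + ‖z‖) z.im hz3
  refine (hFIX ν d ((lev ψ r).conv ρ') (r + r / 8) q0
    (wz K z) hvr hsupp (hCX.2.2.2 d K z hz3.le) hq0 hq1 ?_).2.2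
    (ZW d w₀ η) z1 z2 (fun s hs => (z4 s hs).trans (by linarith)) ?_ s hs0
  · intro k a ha
    refine hq _ a ?_ ?_ (abs_le.2 ha)
    · refine (norm_sub_le _ _).trans ?_
      rw [Complex.norm_real]
      linarith [K.norm_coe_le_norm k]
    · simp
  clear hs0 s
  intro s hs
  obtain ⟨S, hS, hsS⟩ := hs
  have hSi := z3 S hS
  -- the symbol `K - z`
  have hxc : Continuous fun k => ((K k : ℂ) - z) :=
    (Complex.continuous_ofReal.comp K.continuous).sub continuous_const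
  obtain ⟨x, hx⟩ : ∃ x : C(UnitAddTorus (Fin d), ℂ), ∀ k, x k = (K k : ℂ) - z :=
    ⟨⟨_, hxc⟩, fun k => rfl⟩
  have hxW : Wn x β := by
    have e : (toC (fun k => ((K k : ℂ) - z)) : C(UnitAddTorus (Fin d), ℂ)) = x := by
      unfold toC
      rw [dif_pos hxc]
      ext k
      exact (hx k).symm
    rw [← e]
    exact hzK
  have hxi : ∀ k, (x k).im < 0 := by
    intro k
    rw [hx]
    simp
    exact hz3
  -- the inverse of `t = x + S`
  obtain ⟨q1, hq1d⟩ : ∃ q1 : ℝ, q1 = ‖g‖ * (β + η) := ⟨_, rfl⟩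
  have hq1le : q1 ≤ 3 / 8 := by
    rw [hq1d]
    have h1 : ‖g‖ * (β + η) ≤ A * (β + η) := mul_le_mul_of_nonneg_right hmom (by positivity)
    have h2 : A * (β + η) = A * β + 1 / (2 * C₁) := by rw [mul_add, hAη]
    have h3 : 1 / (2 * C₁) ≤ 1 / 4 := by
      apply one_div_le_one_div_of_le (by norm_num); linarith
    have h4 : A * β ≤ 1 / 128 := by nlinarith
    linarith
  obtain ⟨g1, hg1, hg1W, -⟩ := w6 (g • (x + (S - ct d w₀))) q1
    (by rw [hq1d]; exact w2 _ _ _ (w3 _ _ _ _ hxW hS)) (by linarith)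
  have ht : (x + S) * (g • g1) = 1 := by
    ext k
    have h1 := congrArg (fun f : C(UnitAddTorus (Fin d), ℂ) => f k) hg1
    simp only [ContinuousMap.mul_apply, ContinuousMap.add_apply, ContinuousMap.one_apply,
      ContinuousMap.smul_apply, smul_eq_mul, ContinuousMap.sub_apply, ct,
      ContinuousMap.const_apply] at h1 ⊢
    rw [← h1]
    linear_combination (g1 k) * hw₀g
  have huW : Wn (g • g1) (2 * A) := by
    refine (w2 _ _ _ hg1W).mono ?_
    have h1 : 1 / (1 - q1) ≤ 2 := by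
      rw [div_le_iff₀ (by linarith)]
      linarith
    have h2 : 0 ≤ 1 / (1 - q1) := hg1W.nonneg
    nlinarith
  obtain ⟨h, hhW, hhb⟩ := hB d (x + S) (g • g1) (2 * A) (r + r / 8) ((lev ψ r).conv ρ') ht huW
    (by positivity) (by nlinarith) hsupp
  -- the symbol `X`
  obtain ⟨X, hXd⟩ : ∃ X, X = x + h := ⟨_, rfl⟩
  have hXb : ∀ k, X k = 1 / bet ((lev ψ r).conv ρ') (x k + S k) - S k := by
    intro k
    have := (hhb k).2
    rw [hXd]
    simp only [ContinuousMap.add_apply] at this ⊢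
    rw [this]
    ring
  have hux := fun k => hUX ((lev ψ r).conv ρ') _ (x k) (S k) hsupp (hxi k)
    (by linarith [hSi k])
  have hXi : ∀ k, (X k).im < 0 := by
    intro k
    rw [hXb]
    exact (hux k).2.1
  obtain ⟨c, hc, hXc⟩ : ∃ c : ℝ, 0 < c ∧ ∀ k, (X k).im ≤ -c := by
    obtain ⟨k0, -, hk0⟩ := isCompact_univ.exists_isMaxOn (s := (Set.univ :
      Set (UnitAddTorus (Fin d)))) Set.univ_nonempty
      (f := fun k => (X k).im) (Complex.continuous_im.comp X.continuous).continuousOn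
    refine ⟨-(X k0).im, by linarith [hXi k0], fun k => ?_⟩
    have := hk0 (Set.mem_univ k)
    simp only [Set.mem_ofPred_eq] at this
    linarith
  have hXW : Wn X (β + 1) := by
    rw [hXd]
    exact (w3 _ _ _ _ hxW hhW).mono (by linarith)
  have hXIW : Wn (X + ct d Complex.I) (β + 2) := by
    refine (w3 _ _ _ _ hXW (w1 Complex.I)).mono ?_
    rw [Complex.norm_I]
    linarith
  obtain ⟨q, hqd⟩ : ∃ q, q = A * (β + 2) := ⟨_, rfl⟩
  have hq0' : 0 ≤ q := by rw [hqd]; positivity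
  have hAna := hA ν d A C₁ (β + 2) c X hML hc hXc hXIW (by linarith) (by linarith)
  rw [← hqd, ← hg] at hAna
  rw [← hqd] at hq128 hκ'
  -- the inverse of the mean
  obtain ⟨q2, hq2d⟩ : ∃ q2 : ℝ, q2 = ‖w₀‖ * (A * q / (1 - q)) := ⟨_, rfl⟩
  have hq2le : q2 * C₁ ^ 2 ≤ 1 / 15 := by
    have h1 : q2 ≤ C₁ * (q / (1 - q)) := by
      rw [hq2d]
      have : ‖w₀‖ * (A * q / (1 - q)) = (‖w₀‖ * A) * (q / (1 - q)) := by ring
      rw [this]
      exact mul_le_mul_of_nonneg_right hw₀n (div_nonneg hq0' (by linarith))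
    have h2 : q / (1 - q) ≤ q * (128 / 127) := by
      rw [div_le_iff₀ (by linarith)]
      nlinarith
    calc q2 * C₁ ^ 2 ≤ (C₁ * (q * (128 / 127))) * C₁ ^ 2 := by
          refine mul_le_mul_of_nonneg_right (h1.trans ?_) (by positivity)
          exact mul_le_mul_of_nonneg_left h2 hC0.le
      _ = (q * (16 * C₁ ^ 3)) * (8 / 127) := by ring
      _ ≤ 1 * (8 / 127) := mul_le_mul_of_nonneg_right hκ' (by norm_num)
      _ ≤ 1 / 15 := by norm_num
  have hWe2 : Wn (w₀ • (GX ν X - ct d g)) q2 := by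
    rw [hq2d]
    exact w2 _ _ _ hAna
  have hq20 : 0 ≤ q2 := hWe2.nonneg
  have hq260 : q2 ≤ 1 / 60 := by nlinarith
  obtain ⟨g2, hg2, -, hg2W⟩ := w6 _ q2 hWe2 (by linarith)
  have hG : ∀ k, GX ν X k * (w₀ * g2 k) = 1 := by
    intro k
    have h1 := congrArg (fun f : C(UnitAddTorus (Fin d), ℂ) => f k) hg2
    simp only [ContinuousMap.mul_apply, ContinuousMap.add_apply, ContinuousMap.one_apply,
      ContinuousMap.smul_apply, smul_eq_mul, ContinuousMap.sub_apply, ct,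
      ContinuousMap.const_apply] at h1
    rw [← h1]
    linear_combination (g2 k) * hw₀g
  have hG0 : ∀ k, GX ν X k ≠ 0 := by
    intro k h0
    have := hG k
    rw [h0, zero_mul] at this
    exact zero_ne_one this
  have hG1 : ∀ k, 1 / GX ν X k = w₀ * g2 k := by
    intro k
    rw [div_eq_iff (hG0 k), mul_comm]
    exact (hG k).symm
  -- the effective contraction
  have hUUX : UU ((lev ψ r).conv ρ') (wz K z) s = toC fun k => cayx (X k) 0 := by
    unfold UU
    congr 1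
    funext k
    rw [hXb k, hsS k]
    have := (hux k).2.2
    rw [← this]
    unfold wz
    rw [hx k]
  rw [hUUX]
  refine ⟨w₀ • g2 - X, ?_, fun k => ?_⟩
  · have e : w₀ • g2 - X - ct d w₀ = w₀ • (g2 - 1) + (-1 : ℂ) • X := by
      ext k
      simp only [ContinuousMap.add_apply, ContinuousMap.one_apply,
        ContinuousMap.smul_apply, smul_eq_mul, ContinuousMap.sub_apply, ct,
        ContinuousMap.const_apply]
      ring
    rw [e]
    refine (w3 _ _ _ _ (w2 _ _ _ hg2W) (w2 _ _ _ hXW)).mono ?_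
    rw [norm_neg, norm_one, one_mul]
    have h1 : q2 / (1 - q2) ≤ q2 * (60 / 59) := by
      rw [div_le_iff₀ (by linarith)]
      nlinarith
    have h2 : A * (‖w₀‖ * (q2 / (1 - q2)) + (β + 1)) ≤ A * η := by
      rw [hAη]
      have h3 : A * (‖w₀‖ * (q2 / (1 - q2))) ≤ C₁ * (q2 * (60 / 59)) := by
        calc A * (‖w₀‖ * (q2 / (1 - q2))) = (‖w₀‖ * A) * (q2 / (1 - q2)) := by ring
          _ ≤ C₁ * (q2 * (60 / 59)) :=
            mul_le_mul hw₀n h1 (div_nonneg hq20 (by linarith)) hC0.le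
      have h4 : C₁ * (q2 * (60 / 59)) ≤ (1 / 14) / C₁ := by
        rw [le_div_iff₀ hC0]
        nlinarith
      have h5 : A * (β + 1) ≤ (1 / 64) / C₁ := by
        rw [le_div_iff₀ hC0]
        have h6 : A * (β + 1) ≤ q := by rw [hqd]; nlinarith
        have h7 : q * C₁ * (16 * C₁ ^ 2) ≤ 1 := by
          calc q * C₁ * (16 * C₁ ^ 2) = q * (16 * C₁ ^ 3) := by ring
            _ ≤ 1 := hκ'
        have h8 : 64 ≤ 16 * C₁ ^ 2 := by nlinarith
        have h9 : 0 ≤ q * C₁ := by positivity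
        have h10 : q * C₁ * 64 ≤ 1 := by nlinarith
        nlinarith
      have h11 : (1 / 14) / C₁ + (1 / 64) / C₁ ≤ 1 / (2 * C₁) := by
        rw [← add_div, div_le_div_iff₀ hC0 (by positivity)]
        nlinarith
      rw [mul_add]
      linarith
    exact le_of_mul_le_mul_left h2 hA0
  · rw [hP ν d c X hc hXc k (hG0 k), hG1 k]
    rfl

end

end Pool.Agent.Run7.h47.SD
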