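import Pool.Agent.Run7.h47.SD.Iface2
import Pool.Agent.Run7.h47.SD.Gap

/-!
# Project SD, stage 2: the gap
-/

set_option autoImplicit false

namespace Pool.Agent.Run7.h47.SD

open MeasureTheory Filter Pool.Agent.W792.LL Pool.Agent.W792.WA Pool.Agent.N659.HB
open Pool.Agent.N163.HB.GAPA ProbabilityTheory
open scoped Topology ENNReal

noncomputable section

/-- The set of self-energies. -/
def PW (d : ℕ) (lam e η : ℝ) (w₀ : ℂ) : Set C(UnitAddTorus (Fin d), ℂ) :=
  {S | Wn ((lam : ℂ) • (S - ct d e) - ct d w₀) η}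

/-- The set of self-energies is closed, nonempty, and bounded. -/
theorem PW_facts (hW : S_WAL) (d : ℕ) {lam e η : ℝ} {w₀ : ℂ} (hl : 0 < lam) (hη : 0 < η)
    (hw : w₀.im ≤ -2 * η) :
    IsClosed (PW d lam e η w₀) ∧ (PW d lam e η w₀).Nonempty ∧
    ∀ S ∈ PW d lam e η w₀, ∀ k, ‖S k‖ ≤ |e| + (‖w₀‖ + η) / lam ∧ (S k).im ≤ -(η / lam) := by
  obtain ⟨w1, w2, w3, w4, w5, w6, w7⟩ := hW d
  have hlC : (lam : ℂ) ≠ 0 := by exact_mod_cast hl.ne'
  refine ⟨?_, ?_, ?_⟩
  · apply IsSeqClosed.isClosed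
    intro Sn S hSn hlim
    refine w7 (fun n => (lam : ℂ) • (Sn n - ct d e) - ct d w₀) _ η hSn ?_
    exact ((hlim.sub_const _).const_smul _).sub_const _
  · refine ⟨((1 / lam : ℝ) : ℂ) • ct d w₀ + ct d e, ?_⟩
    have e1 : (lam : ℂ) • (((1 / lam : ℝ) : ℂ) • ct d w₀ + ct d e - ct d e) - ct d w₀ = ct d 0 := by
      ext k
      simp only [ContinuousMap.add_apply, ContinuousMap.smul_apply, smul_eq_mul,
        ContinuousMap.sub_apply, ct, ContinuousMap.const_apply]
      push_cast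
      field_simp
      ring
    show Wn _ η
    rw [e1]
    intro F
    refine (w1 0 F).trans ?_
    rw [norm_zero]
    exact hη.le
  · intro S hS k
    have h1 := w5 _ _ hS k
    simp only [ContinuousMap.sub_apply, ContinuousMap.smul_apply, smul_eq_mul, ct,
      ContinuousMap.const_apply] at h1
    have hSk : S k = e + ((lam : ℂ) * (S k - e) - w₀ + w₀) / lam := by
      field_simp
      ring
    constructor
    · rw [hSk]
      refine (norm_add_le _ _).trans ?_
      rw [Complex.norm_real, Real.norm_eq_abs, norm_div, Complex.norm_real,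
        Real.norm_of_nonneg hl.le]
      have h2 : ‖(lam : ℂ) * (S k - e) - w₀ + w₀‖ ≤ ‖w₀‖ + η := by
        refine (norm_add_le _ _).trans ?_
        linarith
      gcongr
    · have h2 := (Complex.abs_im_le_norm _).trans h1
      rw [Complex.sub_im] at h2
      have h3 : ((lam : ℂ) * (S k - e)).im = lam * (S k).im := by
        simp
      rw [h3] at h2
      have h4 := (abs_le.1 h2).2
      have h5 : lam * (S k).im ≤ -η := by linarith
      rw [← neg_div, le_div_iff₀ hl]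
      linarith

/-- The trivial gap away from the real axis. -/
theorem far_gap (hCX : S_CX) (hFIX : S_FIX) {ψ : C(UnitAddCircle, ℝ)} (hψ : IsSemi ψ)
    (ν : Measure ℝ) [IsProbabilityMeasure ν] (d : ℕ) {r η₁ : ℝ} (K : C(UnitAddTorus (Fin d), ℝ))
    (hvr : 0 < vr ν) (hη₁ : 0 < η₁) (hr : 0 < r) :
    ∃ g : ℝ, 0 < g ∧ ∀ (ρ' : Measure ℝ) [IsProbabilityMeasure ρ'],
      ρ' (Set.Icc (-(r / 8)) (r / 8))ᶜ = 0 → ∀ z ∈ Zs d, η₁ ≤ z.im →
      ∀ s, IsFix ν ((lev ψ r).conv ρ') (wz K z) s → ‖s‖ ≤ 1 - g := by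
  obtain ⟨q, hq0, hq1, hq⟩ := hCX.2.2.1 (r + r / 8) (‖K‖ + (4 * d + 1)) η₁ hη₁
  have hq2 : q ^ 2 < 1 := by nlinarith
  refine ⟨(1 - q ^ 2) * vr ν / 8, by
    have : 0 < 1 - q ^ 2 := by linarith
    positivity, ?_⟩
  intro ρ' _ hρ' z hz hzi s hs
  obtain ⟨hz1, hz2, hz3, hz4⟩ := hz
  have hprob : IsProbabilityMeasure (lev ψ r) := lev_prob ψ _
  have hsupp : ((lev ψ r).conv ρ') (Set.Icc (-(r + r / 8)) (r + r / 8))ᶜ = 0 :=
    conv_supp _ _ (lev_supp hψ hr) hρ'
  have hzn : ‖z‖ ≤ 4 * d + 1 := by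
    refine (Complex.norm_le_abs_re_add_abs_im z).trans ?_
    rw [abs_of_nonneg hz1, abs_of_pos hz3]
    linarith
  have h := (hFIX ν d ((lev ψ r).conv ρ') (r + r / 8) q (wz K z) hvr hsupp
    (hCX.2.2.2 d K z hz3.le) hq0 hq1 (by
      intro k a ha
      refine hq _ a ?_ ?_ (abs_le.2 ha)
      · refine (norm_sub_le _ _).trans ?_
        rw [Complex.norm_real]
        linarith [K.norm_coe_le_norm k]
      · simp only [Complex.sub_im, Complex.ofReal_im]
        linarith)).2.1 s hs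
  rw [ContinuousMap.norm_le_of_nonempty]
  intro k
  have h1 := h k
  have h2 := norm_nonneg (s k)
  by_contra hcon
  push Not at hcon
  have h3 : 0 < vr ν := hvr
  have h4 : vr ν ≤ 1 := by
    unfold vr
    have := sq_nonneg ‖∫ x, cay x ∂ν‖
    linarith
  have h5 : 0 < 1 - q ^ 2 := by linarith
  have h6 : (1 - q ^ 2) * vr ν ≤ 1 := by
    have : 1 - q ^ 2 ≤ 1 := by nlinarith
    nlinarith
  nlinarith [sq_nonneg ((1 - q ^ 2) * vr ν / 8), mul_pos h5 h3]

set_option maxHeartbeats 4000000 in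
/-- GAPB. -/
theorem t_GAPB (hW : S_WAL) (hB : S_BETW) (hCLO : S_CLO) (hA : S_ANA) (hP : S_PSG) (hF : S_AFC)
    (hUX : S_UX) (hCX : S_CX) (hFIX : S_FIX) : S_GAPB := by
  intro C₁ hC₁
  have hC0 : 0 < C₁ := by linarith
  refine ⟨1 / (16 * C₁ ^ 3), by positivity, ?_⟩
  intro ψ hψ ν _ d A β r lam R η₁ K hd hvr hA0 hl hη₁ hr hlr hβ hκ hK
  have hlC : (lam : ℂ) ≠ 0 := by exact_mod_cast hl.ne'
  have hC3 : 8 ≤ C₁ ^ 3 := by nlinarith [sq_nonneg (C₁ - 2)]
  have hκ' : A * (β + 2) * (16 * C₁ ^ 3) ≤ 1 := by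
    rw [le_div_iff₀ (by positivity)] at hκ
    exact hκ
  have hq128 : A * (β + 2) ≤ 1 / 128 := by
    have : 0 ≤ A * (β + 2) := by positivity
    nlinarith
  obtain ⟨η, hη⟩ : ∃ η : ℝ, η = 1 / (2 * C₁ * A) := ⟨_, rfl⟩
  have hη0 : 0 < η := by rw [hη]; positivity
  have hAη : A * η = 1 / (2 * C₁) := by rw [hη]; field_simp
  obtain ⟨gA, hgA, hfar⟩ := far_gap hCX hFIX hψ ν d K hvr hη₁ hr
  obtain ⟨R₂, hR₂⟩ : ∃ R₂ : ℝ, R₂ = |R| + (C₁ / A + η) / lam := ⟨_, rfl⟩
  have hR₂0 : 0 ≤ R₂ := by rw [hR₂]; positivity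
  refine ⟨min gA (2 * (η / lam) / (R₂ + 1) ^ 2), lt_min hgA (by positivity), ?_⟩
  intro ρ' _ hρ' z hz s hs0
  rcases le_total η₁ z.im with hzi | hzi
  · have hmin : min gA (2 * (η / lam) / (R₂ + 1) ^ 2) ≤ gA := min_le_left _ _
    exact (hfar ρ' hρ' z hz hzi s hs0).trans (by linarith)
  refine le_trans ?_ (sub_le_sub_left (min_le_right gA (2 * (η / lam) / (R₂ + 1) ^ 2)) 1)
  obtain ⟨e, heR, hML, hzK⟩ := hK z hz hzi
  obtain ⟨w1, w2, w3, w4, w5, w6, -⟩ := hW d
  have hmap : Measurable fun v : ℝ => lam * (v - e) := by fun_prop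
  have hpν : IsProbabilityMeasure (ν.map fun v => lam * (v - e)) :=
    Measure.isProbabilityMeasure_map hmap.aemeasurable
  have hlow := hML.low
  have hmom := hML.mom 1 le_rfl
  simp only [pow_one] at hmom
  obtain ⟨g, hg⟩ : ∃ g, g = ∫ v, dd v ∂(ν.map fun v => lam * (v - e)) := ⟨_, rfl⟩
  rw [← hg] at hlow hmom
  have hgim : 0 < g.im := lt_of_lt_of_le (by positivity) hlow
  have hg0 : g ≠ 0 := by
    intro h
    rw [h] at hgim
    simp at hgim
  have hgn : 0 < ‖g‖ := norm_pos_iff.2 hg0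
  have hglow : A / C₁ ≤ ‖g‖ := hlow.trans ((le_abs_self _).trans (Complex.abs_im_le_norm g))
  obtain ⟨w₀, hw₀⟩ : ∃ w₀ : ℂ, w₀ = 1 / g := ⟨_, rfl⟩
  have hw₀g : w₀ * g = 1 := by rw [hw₀]; field_simp
  have hw₀n : ‖w₀‖ * A ≤ C₁ := by
    rw [hw₀, norm_div, norm_one, one_div, ← div_eq_inv_mul, div_le_iff₀ hgn]
    rw [div_le_iff₀ hC0] at hglow
    linarith
  have hw₀i : w₀.im ≤ -2 * η := by
    rw [hw₀, one_div, Complex.inv_im, hη]
    have h1 : Complex.normSq g ≤ A ^ 2 := by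
      rw [Complex.normSq_eq_norm_sq]
      exact pow_le_pow_left₀ (norm_nonneg _) hmom 2
    have h2 : 0 < Complex.normSq g := Complex.normSq_pos.2 hg0
    have h3 : 1 / (C₁ * A) ≤ g.im / Complex.normSq g := by
      rw [le_div_iff₀ h2]
      calc 1 / (C₁ * A) * Complex.normSq g ≤ 1 / (C₁ * A) * A ^ 2 :=
            mul_le_mul_of_nonneg_left h1 (by positivity)
        _ = A / C₁ := by field_simp
        _ ≤ g.im := hlow
    have h4 : 2 * (1 / (2 * C₁ * A)) = 1 / (C₁ * A) := by field_simp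
    rw [neg_div]
    linarith
  obtain ⟨p1, p2, p3⟩ := PW_facts hW d (e := e) hl hη0 hw₀i
  have hp3 : ∀ S ∈ PW d lam e η w₀, ∀ k, ‖S k‖ ≤ R₂ ∧ (S k).im ≤ -(η / lam) := by
    intro S hS k
    refine ⟨(p3 S hS k).1.trans ?_, (p3 S hS k).2⟩
    rw [hR₂]
    have h1 : ‖w₀‖ ≤ C₁ / A := by
      rw [le_div_iff₀ hA0]
      exact hw₀n
    have h2 : |e| ≤ |R| := heR.trans (le_abs_self R)
    gcongr
  obtain ⟨z1, z4⟩ := hCLO d (PW d lam e η w₀) R₂ (η / lam) (by positivity) p1 hp3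
  suffices h : s ∈ cyi (PW d lam e η w₀) from z4 s h
  obtain ⟨hz1, hz2, hz3, hz4⟩ := hz
  have hprob : IsProbabilityMeasure (lev ψ r) := lev_prob ψ _
  have hsupp : ((lev ψ r).conv ρ') (Set.Icc (-(r + r / 8)) (r + r / 8))ᶜ = 0 :=
    conv_supp _ _ (lev_supp hψ hr) hρ'
  obtain ⟨q0, hq0, hq1, hq⟩ := hCX.2.2.1 (r + r / 8) (‖K‖ + ‖z‖) z.im hz3
  have hne : (cyi (PW d lam e η w₀)).Nonempty := by
    obtain ⟨S, hS⟩ := p2
    have hne : ∀ k, S k - Complex.I ≠ 0 := by
      intro k h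
      have h1 := congrArg Complex.im h
      have h2 := (hp3 S hS k).2
      have h3 : 0 < η / lam := by positivity
      simp at h1
      linarith
    have hc : Continuous fun k => cayx (S k) 0 := by
      have e1 : (fun k => cayx (S k) 0) = fun k => (S k + Complex.I) / (S k - Complex.I) := by
        funext k
        simp [cayx]
      rw [e1]
      exact (S.continuous.add continuous_const).div (S.continuous.sub continuous_const) hne
    exact ⟨⟨_, hc⟩, S, hS, fun k => rfl⟩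
  refine (hFIX ν d ((lev ψ r).conv ρ') (r + r / 8) q0
    (wz K z) hvr hsupp (hCX.2.2.2 d K z hz3.le) hq0 hq1 ?_).2.2
    (cyi (PW d lam e η w₀)) z1 hne (fun s hs => (z4 s hs).trans (by
      have : 0 ≤ 2 * (η / lam) / (R₂ + 1) ^ 2 := by positivity
      linarith)) ?_ s hs0
  · intro k a ha
    refine hq _ a ?_ ?_ (abs_le.2 ha)
    · refine (norm_sub_le _ _).trans ?_
      rw [Complex.norm_real]
      linarith [K.norm_coe_le_norm k]
    · simp
  clear hs0 s
  intro s hs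
  obtain ⟨S, hS, hsS⟩ := hs
  have hSi : ∀ k, (S k).im ≤ -(η / lam) := fun k => (hp3 S hS k).2
  have hSw : Wn ((lam : ℂ) • (S - ct d e) - ct d w₀) η := hS
  have hηl : 0 < η / lam := by positivity
  -- the symbol `K - z`
  have hxc : Continuous fun k => ((K k : ℂ) - z) :=
    (Complex.continuous_ofReal.comp K.continuous).sub continuous_const
  obtain ⟨x, hx⟩ : ∃ x : C(UnitAddTorus (Fin d), ℂ), ∀ k, x k = (K k : ℂ) - z :=
    ⟨⟨_, hxc⟩, fun k => rfl⟩
  have hxW : Wn ((lam : ℂ) • (x + ct d e)) β := by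
    have hxc2 : Continuous fun k => (lam : ℂ) * (((K k : ℂ) - z) + e) :=
      continuous_const.mul (hxc.add continuous_const)
    have e1 : (toC (fun k => (lam : ℂ) * (((K k : ℂ) - z) + e)) : C(UnitAddTorus (Fin d), ℂ)) =
        (lam : ℂ) • (x + ct d e) := by
      unfold toC
      rw [dif_pos hxc2]
      ext k
      simp only [ContinuousMap.coe_mk, ContinuousMap.smul_apply, smul_eq_mul,
        ContinuousMap.add_apply, ct, ContinuousMap.const_apply, hx k]
    rw [← e1]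
    exact hzK
  have hxi : ∀ k, (x k).im < 0 := by
    intro k
    rw [hx]
    simp
    exact hz3
  -- the inverse of `t = x + S`
  obtain ⟨q1, hq1d⟩ : ∃ q1 : ℝ, q1 = ‖g‖ * (β + η) := ⟨_, rfl⟩
  have hq1le : q1 ≤ 3 / 8 := by
    rw [hq1d]
    have h1 : ‖g‖ * (β + η) ≤ A * (β + η) := mul_le_mul_of_nonneg_right hmom (by positivity)
    have h2 : A * (β + η) = A * β + 1 / (2 * C₁) := by rw [mul_add, hAη]
    have h3 : 1 / (2 * C₁) ≤ 1 / 4 := by
      apply one_div_le_one_div_of_le (by norm_num); linarith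
    have h4 : A * β ≤ 1 / 128 := by nlinarith
    linarith
  obtain ⟨g1, hg1, hg1W, -⟩ := w6 (g • ((lam : ℂ) • (x + ct d e) +
    ((lam : ℂ) • (S - ct d e) - ct d w₀))) q1
    (by rw [hq1d]; exact w2 _ _ _ (w3 _ _ _ _ hxW hSw)) (by linarith)
  have ht : (x + S) * ((lam : ℂ) • (g • g1)) = 1 := by
    ext k
    have h1 := congrArg (fun f : C(UnitAddTorus (Fin d), ℂ) => f k) hg1
    simp only [ContinuousMap.mul_apply, ContinuousMap.add_apply, ContinuousMap.one_apply,
      ContinuousMap.smul_apply, smul_eq_mul, ContinuousMap.sub_apply, ct,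
      ContinuousMap.const_apply] at h1 ⊢
    rw [← h1]
    linear_combination (g1 k) * hw₀g
  have huW : Wn ((lam : ℂ) • (g • g1)) (lam * (2 * A)) := by
    have h3 := w2 _ (lam : ℂ) _ (w2 _ g _ hg1W)
    refine h3.mono ?_
    rw [Complex.norm_real, Real.norm_of_nonneg hl.le]
    have h1 : 1 / (1 - q1) ≤ 2 := by
      rw [div_le_iff₀ (by linarith)]
      linarith
    have h2 : 0 ≤ 1 / (1 - q1) := hg1W.nonneg
    refine mul_le_mul_of_nonneg_left ?_ hl.le
    nlinarith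
  have hrl : (r + r / 8) * (lam * (2 * A)) ≤ 1 / 8 := by
    have h1 : (r + r / 8) * (lam * (2 * A)) = (9 / 4) * ((lam * r) * A) := by ring
    have h2 : (lam * r) * A ≤ (1 / 4) * A := mul_le_mul_of_nonneg_right hlr hA0.le
    have h3 : A * 2 ≤ A * (β + 2) := by nlinarith
    rw [h1]
    linarith
  obtain ⟨h, hhW, hhb⟩ := hB d (x + S) ((lam : ℂ) • (g • g1)) (lam * (2 * A)) (r + r / 8)
    ((lev ψ r).conv ρ') ht huW (by positivity) hrl hsupp
  -- the symbol `X`
  obtain ⟨X, hXd⟩ : ∃ X, X = x + h := ⟨_, rfl⟩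
  have hXb : ∀ k, X k = 1 / bet ((lev ψ r).conv ρ') (x k + S k) - S k := by
    intro k
    have := (hhb k).2
    rw [hXd]
    simp only [ContinuousMap.add_apply] at this ⊢
    rw [this]
    ring
  have hux := fun k => hUX ((lev ψ r).conv ρ') _ (x k) (S k) hsupp (hxi k)
    (by linarith [hSi k])
  have hXi : ∀ k, (X k).im < 0 := by
    intro k
    rw [hXb]
    exact (hux k).2.1
  obtain ⟨c, hc, hXc⟩ : ∃ c : ℝ, 0 < c ∧ ∀ k, (X k).im ≤ -c := by
    obtain ⟨k0, -, hk0⟩ := isCompact_univ.exists_isMaxOn (s := (Set.univ :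
      Set (UnitAddTorus (Fin d)))) Set.univ_nonempty
      (f := fun k => (X k).im) (Complex.continuous_im.comp X.continuous).continuousOn
    refine ⟨-(X k0).im, by linarith [hXi k0], fun k => ?_⟩
    have := hk0 (Set.mem_univ k)
    simp only [Set.mem_ofPred_eq] at this
    linarith
  obtain ⟨Y, hYd⟩ : ∃ Y : C(UnitAddTorus (Fin d), ℂ), Y = (lam : ℂ) • (X + ct d e) := ⟨_, rfl⟩
  have hYi : ∀ k, (Y k).im ≤ -(lam * c) := by
    intro k
    rw [hYd]
    have h1 := hXc k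
    have h2 : (((lam : ℂ) • (X + ct d e)) k).im = lam * (X k).im := by
      simp [ct]
    rw [h2]
    nlinarith
  have hYW : Wn Y (β + 1) := by
    have e1 : Y = (lam : ℂ) • (x + ct d e) + (lam : ℂ) • h := by
      rw [hYd, hXd]
      ext k
      simp only [ContinuousMap.add_apply, ContinuousMap.smul_apply, smul_eq_mul]
      ring
    rw [e1]
    refine (w3 _ _ _ _ hxW (w2 _ (lam : ℂ) _ hhW)).mono ?_
    rw [Complex.norm_real, Real.norm_of_nonneg hl.le]
    linarith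
  have hYIW : Wn (Y + ct d Complex.I) (β + 2) := by
    refine (w3 _ _ _ _ hYW (w1 Complex.I)).mono ?_
    rw [Complex.norm_I]
    linarith
  obtain ⟨q, hqd⟩ : ∃ q, q = A * (β + 2) := ⟨_, rfl⟩
  have hq0' : 0 ≤ q := by rw [hqd]; positivity
  have hAna := hA (ν.map fun v => lam * (v - e)) d A C₁ (β + 2) (lam * c) Y hML (by positivity)
    hYi hYIW (by linarith) (by linarith)
  rw [← hqd, ← hg] at hAna
  rw [← hqd] at hq128 hκ'
  -- the inverse of the mean
  obtain ⟨q2, hq2d⟩ : ∃ q2 : ℝ, q2 = ‖w₀‖ * (A * q / (1 - q)) := ⟨_, rfl⟩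
  have hq2le : q2 * C₁ ^ 2 ≤ 1 / 15 := by
    have h1 : q2 ≤ C₁ * (q / (1 - q)) := by
      rw [hq2d]
      have : ‖w₀‖ * (A * q / (1 - q)) = (‖w₀‖ * A) * (q / (1 - q)) := by ring
      rw [this]
      exact mul_le_mul_of_nonneg_right hw₀n (div_nonneg hq0' (by linarith))
    have h2 : q / (1 - q) ≤ q * (128 / 127) := by
      rw [div_le_iff₀ (by linarith)]
      nlinarith
    calc q2 * C₁ ^ 2 ≤ (C₁ * (q * (128 / 127))) * C₁ ^ 2 := by
          refine mul_le_mul_of_nonneg_right (h1.trans ?_) (by positivity)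
          exact mul_le_mul_of_nonneg_left h2 hC0.le
      _ = (q * (16 * C₁ ^ 3)) * (8 / 127) := by ring
      _ ≤ 1 * (8 / 127) := mul_le_mul_of_nonneg_right hκ' (by norm_num)
      _ ≤ 1 / 15 := by norm_num
  have hWe2 : Wn (w₀ • (GX (ν.map fun v => lam * (v - e)) Y - ct d g)) q2 := by
    rw [hq2d]
    exact w2 _ _ _ hAna
  have hq20 : 0 ≤ q2 := hWe2.nonneg
  have hq260 : q2 ≤ 1 / 60 := by nlinarith
  obtain ⟨g2, hg2, -, hg2W⟩ := w6 _ q2 hWe2 (by linarith)
  have hG : ∀ k, GX (ν.map fun v => lam * (v - e)) Y k * (w₀ * g2 k) = 1 := by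
    intro k
    have h1 := congrArg (fun f : C(UnitAddTorus (Fin d), ℂ) => f k) hg2
    simp only [ContinuousMap.mul_apply, ContinuousMap.add_apply, ContinuousMap.one_apply,
      ContinuousMap.smul_apply, smul_eq_mul, ContinuousMap.sub_apply, ct,
      ContinuousMap.const_apply] at h1
    rw [← h1]
    linear_combination (g2 k) * hw₀g
  have hG' : ∀ k, GX ν X k = lam * GX (ν.map fun v => lam * (v - e)) Y k := by
    intro k
    rw [hYd]
    exact hF ν d c lam e X hc hXc hl k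
  have hG0 : ∀ k, GX ν X k ≠ 0 := by
    intro k h0
    rw [hG' k] at h0
    have h1 := (mul_eq_zero.1 h0).resolve_left hlC
    have := hG k
    rw [h1, zero_mul] at this
    exact zero_ne_one this
  have hG1 : ∀ k, 1 / GX ν X k = (w₀ * g2 k) / lam := by
    intro k
    rw [div_eq_div_iff (hG0 k) hlC, hG' k]
    linear_combination (-(lam : ℂ)) * hG k
  -- the effective contraction
  have hUUX : UU ((lev ψ r).conv ρ') (wz K z) s = toC fun k => cayx (X k) 0 := by
    unfold UU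
    congr 1
    funext k
    rw [hXb k, hsS k]
    have := (hux k).2.2
    rw [← this]
    unfold wz
    rw [hx k]
  rw [hUUX]
  refine ⟨((1 / lam : ℝ) : ℂ) • (w₀ • g2) - X, ?_, fun k => ?_⟩
  · have e1 : (lam : ℂ) • (((1 / lam : ℝ) : ℂ) • (w₀ • g2) - X - ct d e) - ct d w₀ =
        w₀ • (g2 - 1) + (-1 : ℂ) • Y := by
      rw [hYd]
      ext k
      simp only [ContinuousMap.add_apply, ContinuousMap.one_apply,
        ContinuousMap.smul_apply, smul_eq_mul, ContinuousMap.sub_apply, ct,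
        ContinuousMap.const_apply]
      push_cast
      field_simp
      ring
    show Wn _ η
    rw [e1]
    refine (w3 _ _ _ _ (w2 _ _ _ hg2W) (w2 _ _ _ hYW)).mono ?_
    rw [norm_neg, norm_one, one_mul]
    have h1 : q2 / (1 - q2) ≤ q2 * (60 / 59) := by
      rw [div_le_iff₀ (by linarith)]
      nlinarith
    have h2 : A * (‖w₀‖ * (q2 / (1 - q2)) + (β + 1)) ≤ A * η := by
      rw [hAη]
      have h3 : A * (‖w₀‖ * (q2 / (1 - q2))) ≤ C₁ * (q2 * (60 / 59)) := by
        calc A * (‖w₀‖ * (q2 / (1 - q2))) = (‖w₀‖ * A) * (q2 / (1 - q2)) := by ring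
          _ ≤ C₁ * (q2 * (60 / 59)) :=
            mul_le_mul hw₀n h1 (div_nonneg hq20 (by linarith)) hC0.le
      have h4 : C₁ * (q2 * (60 / 59)) ≤ (1 / 14) / C₁ := by
        rw [le_div_iff₀ hC0]
        nlinarith
      have h5 : A * (β + 1) ≤ (1 / 64) / C₁ := by
        rw [le_div_iff₀ hC0]
        have h6 : A * (β + 1) ≤ q := by rw [hqd]; nlinarith
        have h7 : q * C₁ * (16 * C₁ ^ 2) ≤ 1 := by
          calc q * C₁ * (16 * C₁ ^ 2) = q * (16 * C₁ ^ 3) := by ring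
            _ ≤ 1 := hκ'
        have h8 : 64 ≤ 16 * C₁ ^ 2 := by nlinarith
        have h9 : 0 ≤ q * C₁ := by positivity
        have h10 : q * C₁ * 64 ≤ 1 := by nlinarith
        nlinarith
      have h11 : (1 / 14) / C₁ + (1 / 64) / C₁ ≤ 1 / (2 * C₁) := by
        rw [← add_div, div_le_div_iff₀ hC0 (by positivity)]
        nlinarith
      rw [mul_add]
      linarith
    exact le_of_mul_le_mul_left h2 hA0
  · rw [hP ν d c X hc hXc k (hG0 k), hG1 k]
    congr 1
    simp only [ContinuousMap.sub_apply, ContinuousMap.smul_apply, smul_eq_mul]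
    push_cast
    ring

end

end Pool.Agent.Run7.h47.SD
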