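import Pool.Agent.Run7.h47.SD.Iface2
import Pool.Agent.Run7.h712.SD.FIN
import Pool.Agent.Run7.h888.SD.WAL

/-!
# Project SD: Wiener norms of the adjacency operator and of the Laplacian
-/

set_option autoImplicit false

namespace Pool.Agent.Run7.h47.SD

open MeasureTheory Filter Pool.Agent.W792.LL Pool.Agent.W792.WA Pool.Agent.N659.HB
open scoped Topology ENNReal

noncomputable section

theorem cR_adj (d : ℕ) : cR (adjm d) =
    ∑ i : Fin d, (UnitAddTorus.mFourier (Pi.single i 1) +
      UnitAddTorus.mFourier (-(Pi.single i 1))) := by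
  have hc : Continuous fun k : UnitAddTorus (Fin d) => ((adjm d k : ℝ) : ℂ) :=
    Complex.continuous_ofReal.comp (adjm d).continuous
  unfold cR toC
  rw [dif_pos hc]
  ext k
  simp only [adjm, lap, ContinuousMap.coe_mk, ContinuousMap.add_apply, ContinuousMap.sum_apply,
    ContinuousMap.sub_apply, ContinuousMap.const_apply, UnitAddTorus.mFourier_neg,
    UnitAddTorus.mFourier_single, Complex.add_conj]
  push_cast
  rw [Finset.sum_sub_distrib, Finset.sum_const, Finset.card_univ, Fintype.card_fin, nsmul_eq_mul]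
  ring

theorem wn_adj (d : ℕ) : Wn (cR (adjm d)) (2 * d) := by
  rw [cR_adj]
  have h1 : Wn (∑ i : Fin d, (UnitAddTorus.mFourier (Pi.single i 1) +
      UnitAddTorus.mFourier (-(Pi.single i 1 : Fin d → ℤ)))) (∑ _i : Fin d, (1 + 1 : ℝ)) :=
    Pool.Agent.Run7.h712.SD.wn_sum Pool.Agent.Run7.h888.SD.t_WAL _ _ _ fun i _ =>
      (Pool.Agent.Run7.h888.SD.t_WAL d).2.2.1 _ _ _ _ (Pool.Agent.Run7.h712.SD.wn_mF _)
        (Pool.Agent.Run7.h712.SD.wn_mF _)
  have h2 : (∑ _i : Fin d, (1 + 1 : ℝ)) = 2 * d := by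
    rw [Finset.sum_const, Finset.card_univ, Fintype.card_fin, nsmul_eq_mul]
    ring
  rwa [h2] at h1

theorem wn_lap (d : ℕ) : Wn (cR (lap d)) (4 * d) := by
  have hc1 : Continuous fun k : UnitAddTorus (Fin d) => ((adjm d k : ℝ) : ℂ) :=
    Complex.continuous_ofReal.comp (adjm d).continuous
  have hc2 : Continuous fun k : UnitAddTorus (Fin d) => ((lap d k : ℝ) : ℂ) :=
    Complex.continuous_ofReal.comp (lap d).continuous
  have e : cR (lap d) = ct d (2 * d : ℝ) + (-1 : ℂ) • cR (adjm d) := by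
    unfold cR toC
    rw [dif_pos hc1, dif_pos hc2]
    ext k
    simp only [adjm, ContinuousMap.coe_mk, ContinuousMap.add_apply, ContinuousMap.smul_apply,
      ContinuousMap.sub_apply, ContinuousMap.const_apply, ct, smul_eq_mul]
    push_cast
    ring
  obtain ⟨w1, w2, w3, -⟩ := Pool.Agent.Run7.h888.SD.t_WAL d
  rw [e]
  have h := w3 _ _ _ _ (w1 ((2 * d : ℝ) : ℂ)) (w2 _ (-1 : ℂ) _ (wn_adj d))
  intro F
  refine (h F).trans ?_
  rw [norm_neg, norm_one, Complex.norm_real, Real.norm_of_nonneg (by positivity)]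
  linarith

end

end Pool.Agent.Run7.h47.SD
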