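import Pool.Agent.Run7.h47.SD.All
import Pool.Agent.Run7.h47.SD.Afc
import Pool.Agent.Run7.h47.SD.GapB
import Pool.Agent.Run7.h47.SD.FinB
import Pool.Agent.Run7.h47.SD.WnLap
import Pool.Agent.Run7.h216.SD.CLO
import Pool.Agent.Run7.h300.SD.MGT
import Pool.Agent.Run7.h803.SD.MUT

/-!
# Project SD, stage 2: assembly
-/

set_option autoImplicit false

namespace Pool.Agent.Run7.h47.SD

open Pool.Agent.W792.LL Pool.Agent.W792.WA Pool.Agent.N659.HB

theorem afc : S_AFC :=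
  t_AFC Pool.Agent.W792.WA.Al.opr Pool.Agent.W792.WA.Al.dia Pool.Agent.W792.WA.Al.symb
    Pool.Agent.W792.WA.Al.csym Pool.Agent.W792.WA.Al.cx

theorem gapB : S_GAPB :=
  t_GAPB Pool.Agent.Run7.h888.SD.t_WAL Pool.Agent.Run7.h888.SD.t_BETW
    Pool.Agent.Run7.h216.SD.t_CLO ana
    (Pool.Agent.Run7.h921.SD.t_PSG Pool.Agent.W792.WA.Al.psi Pool.Agent.W792.WA.Al.cx) afc
    Pool.Agent.N659.HB.Al.ux Pool.Agent.W792.WA.Al.cx Pool.Agent.W792.WA.Al.fix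

/-- **The theorem of the project SD, stage 2.** -/
theorem sdB : S_FINB :=
  t_FINB Pool.Agent.Run7.h888.SD.t_WAL gapB Pool.Agent.N659.HB.Al.chk
    Pool.Agent.W792.WA.Al.aeqk Pool.Agent.W792.WA.Al.aff WSP.main Pool.Agent.W792.WA.Al.cay
    (Pool.Agent.W792.WA.Al.exists_lv Pool.Agent.W915.WA.WH.main Pool.Agent.W332.WA.WB.main
      Pool.Agent.W792.WA.Al.wd)

theorem mgt : S_MGT := Pool.Agent.Run7.h300.SD.t_MGT

theorem mutl : S_MUT := _root_.Run7.h803.SD.t_MUT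

end Pool.Agent.Run7.h47.SD
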