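import Pool.Agent.N659.HB.FinG
import Pool.Agent.N916.HB.SE2

/-!
# Project SD (helper47): strong disorder, change of the kinetic energy small in the sup norm

Interface. Every `S_...` is a closed statement, to be proved in its own file. Proved statements to
use: `Pool.Agent.W792.WA.Al.{opr, dia, symb, csym, psi, holc, fix, cx, aeqk, aff}` (import
`Pool.Agent.W792.WA.All` or `All2`) and `Pool.Agent.N659.HB.Al.{ux, chk, lv, zr, trg}` (import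
`Pool.Agent.N659.HB.AllG`). Pieces take them as hypotheses (`S_OPR`, `S_SYMB`, ...), or cite them.
-/

set_option autoImplicit false

namespace Pool.Agent.Run7.h47.SD

open MeasureTheory Filter Pool.Agent.W792.LL Pool.Agent.W792.WA Pool.Agent.N659.HB
open ProbabilityTheory
open scoped Topology ENNReal

noncomputable section

/-- `1 / (v - i)`. -/
def dd (v : ℝ) : ℂ := 1 / ((v : ℂ) - Complex.I)

/-- The diagonal operator with entries `1 / (v x - i)`. -/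
def DD {d : ℕ} (v : (Fin d → ℤ) → ℝ) : l2 (Fin d → ℤ) →L[ℂ] l2 (Fin d → ℤ) := dia fun x => dd (v x)

/-- `D (X D)^n`. -/
def ter {d : ℕ} (X : C(UnitAddTorus (Fin d), ℂ)) (n : ℕ) (v : (Fin d → ℤ) → ℝ) :
    l2 (Fin d → ℤ) →L[ℂ] l2 (Fin d → ℤ) := DD v * (opr X * DD v) ^ n

/-- The sum of the moduli of the Fourier coefficients is at most `β` (Wiener norm). -/
def Wn {d : ℕ} (f : C(UnitAddTorus (Fin d), ℂ)) (β : ℝ) : Prop :=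
  ∀ F : Finset (Fin d → ℤ), ∑ x ∈ F, ‖UnitAddTorus.mFourierCoeff f x‖ ≤ β

/-- Bounds for the moments of `1 / (v - i)`: the density of the law is analytic near `0`. -/
structure ML (ν : Measure ℝ) (A C₁ : ℝ) : Prop where
  pos : 0 < A
  one : 2 ≤ C₁
  mom : ∀ m : ℕ, 1 ≤ m → ‖∫ v, dd v ^ m ∂ν‖ ≤ A ^ m
  low : A / C₁ ≤ (∫ v, dd v ∂ν).im

/-- The symbol of `E (X + V)⁻¹`. -/
def GX (ν : Measure ℝ) [IsProbabilityMeasure ν] {d : ℕ} (X : C(UnitAddTorus (Fin d), ℂ)) :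
    C(UnitAddTorus (Fin d), ℂ) :=
  toC fun k => (cayx (X k) 0 - 1) *
    (1 + (cayx (X k) 0 - 1) * csym ν (toC fun k => cayx (X k) 0) k) / (2 * Complex.I)

/-- A constant symbol. -/
def ct (d : ℕ) (c : ℂ) : C(UnitAddTorus (Fin d), ℂ) := ContinuousMap.const _ c

/-! ## Pieces -/

/-- WAL. The Wiener algebra. For the product: Fourier coefficients of a product are the convolution
(`opr (f * g) = opr f * opr g` in `S_OPR` applied to `dl 0`, or `hasSum_mFourier_series`). -/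
def S_WAL : Prop := ∀ d : ℕ,
  (∀ c : ℂ, Wn (ct d c) ‖c‖) ∧
  (∀ (f : C(UnitAddTorus (Fin d), ℂ)) (c : ℂ) (β : ℝ), Wn f β → Wn (c • f) (‖c‖ * β)) ∧
  (∀ (f g : C(UnitAddTorus (Fin d), ℂ)) (β γ : ℝ), Wn f β → Wn g γ → Wn (f + g) (β + γ)) ∧
  (∀ (f g : C(UnitAddTorus (Fin d), ℂ)) (β γ : ℝ), Wn f β → Wn g γ → Wn (f * g) (β * γ)) ∧
  (∀ (f : C(UnitAddTorus (Fin d), ℂ)) (β : ℝ), Wn f β → ∀ k, ‖f k‖ ≤ β) ∧
  (∀ (e : C(UnitAddTorus (Fin d), ℂ)) (q : ℝ), Wn e q → q < 1 →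
    ∃ g : C(UnitAddTorus (Fin d), ℂ), (1 + e) * g = 1 ∧ Wn g (1 / (1 - q)) ∧
      Wn (g - 1) (q / (1 - q))) ∧
  ∀ (f : ℕ → C(UnitAddTorus (Fin d), ℂ)) (g : C(UnitAddTorus (Fin d), ℂ)) (β : ℝ),
    (∀ n, Wn (f n) β) → Tendsto f atTop (𝓝 g) → Wn g β

/-- BETW. The transform of a law with small support in the Wiener algebra: with `u = 1 / t`,
`bet ρ t = u (1 + e)`, `e = ∫ (-a u) / (1 + a u) dρ(a)`, `1 / bet = t (1 + e)⁻¹`,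
`h = t ((1 + e)⁻¹ - 1) = (∫ a / (1 + a u) dρ(a)) (1 + e)⁻¹`; the Fourier coefficients of an average
over `a` are the averages (Fubini). -/
def S_BETW : Prop :=
  ∀ (d : ℕ) (t u : C(UnitAddTorus (Fin d), ℂ)) (κ r : ℝ) (ρ : Measure ℝ) [IsProbabilityMeasure ρ],
    t * u = 1 → Wn u κ → 0 ≤ r → r * κ ≤ 1 / 8 → ρ (Set.Icc (-r) r)ᶜ = 0 →
    ∃ h : C(UnitAddTorus (Fin d), ℂ), Wn h (2 * r) ∧
      ∀ k, bet ρ (t k) ≠ 0 ∧ 1 / bet ρ (t k) = t k + h k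

/-- The invariant set. -/
def ZW (d : ℕ) (w₀ : ℂ) (η : ℝ) : Set C(UnitAddTorus (Fin d), ℂ) :=
  {s | ∃ S : C(UnitAddTorus (Fin d), ℂ), Wn (S - ct d w₀) η ∧ ∀ k, s k = cayx (S k) 0}

/-- ZCL. The invariant set is closed (`S = i (s + 1) / (s - 1)`, and `‖s‖ ≤ 1 - g` on the set). -/
def S_ZCL : Prop :=
  ∀ (d : ℕ) (w₀ : ℂ) (η : ℝ), 0 < η → w₀.im ≤ -2 * η →
    IsClosed (ZW d w₀ η) ∧ (ZW d w₀ η).Nonempty ∧
    (∀ S : C(UnitAddTorus (Fin d), ℂ), Wn (S - ct d w₀) η → ∀ k, (S k).im ≤ -η) ∧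
    ∃ g : ℝ, 0 < g ∧ ∀ s ∈ ZW d w₀ η, ‖s‖ ≤ 1 - g

/-- PRD. Products over lists of sites. -/
def S_PRD : Prop :=
  ∀ (ν : Measure ℝ) [IsProbabilityMeasure ν] (A C₁ : ℝ), ML ν A C₁ →
    ∀ (Γ : Type) [Countable Γ] (Q : List Γ),
      ‖∫ v, (Q.map fun q => dd (v q)).prod ∂(Pn ν Γ)‖ ≤ A ^ Q.length

/-- KER. The kernels of the terms, from PRD. Induction on `n` over all lists `Q`:
`|E [∏_{q ∈ Q} d(v_q) (D (X D)^n δ_0)_x]| ≤ A ^ (|Q| + n + 1) b_n(x)`, `b_0 = δ_0`,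
`b_{n+1} = |X^| * b_n`, since `(D (X D)^(n+1) δ_0)_x = d(v_x) ∑_y X^(x-y) (D (X D)^n δ_0)_y`. -/
def S_KER : Prop :=
  ∀ (ν : Measure ℝ) [IsProbabilityMeasure ν] (d : ℕ) (A C₁ B : ℝ)
    (X : C(UnitAddTorus (Fin d), ℂ)), ML ν A C₁ → Wn X B →
    ∀ (n : ℕ) (F : Finset (Fin d → ℤ)),
      ∑ x ∈ F, ‖∫ v, ter X n v (dl 0) x ∂(Pn ν (Fin d → ℤ))‖ ≤ A ^ (n + 1) * B ^ n

/-- RES. Expansion for small symbols: with `D = (c - 1) / (2 i)` (bounded operators only),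
`(1/2i) (1 - c) (1 - m c)⁻¹ (m - 1) = D (1 + t X D)⁻¹`, `m = t X / (t X - 2 i)`, and its mean has
the symbol `GX` by `S_CSYM`. -/
def S_RES : Prop :=
  ∀ (ν : Measure ℝ) [IsProbabilityMeasure ν] (d : ℕ) (X : C(UnitAddTorus (Fin d), ℂ)) (t : ℂ),
    ‖t‖ * ‖X‖ ≤ 1 / 2 → ∀ x : Fin d → ℤ,
      HasSum (fun n : ℕ => (-t) ^ n * ∫ v, ter X n v (dl 0) x ∂(Pn ν (Fin d → ℤ)))
        (UnitAddTorus.mFourierCoeff (GX ν (t • X - ct d Complex.I)) x)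

/-- ANC. The symbol along the segment `-i + t (X + i)` is analytic near `[0, 1]`. -/
def S_ANC : Prop :=
  ∀ (ν : Measure ℝ) [IsProbabilityMeasure ν] (d : ℕ) (c : ℝ) (X : C(UnitAddTorus (Fin d), ℂ)),
    0 < c → (∀ k, (X k).im ≤ -c) → ∃ δ : ℝ, 0 < δ ∧
      DifferentiableOn ℂ (fun t : ℂ => GX ν (t • (X + ct d Complex.I) - ct d Complex.I))
        {t : ℂ | ∃ s : ℝ, 0 ≤ s ∧ s ≤ 1 ∧ ‖t - s‖ < δ}

/-- ANA. The expansion in the Wiener norm (from KER, RES, ANC, by the identity theorem for every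
Fourier coefficient). -/
def S_ANA : Prop :=
  ∀ (ν : Measure ℝ) [IsProbabilityMeasure ν] (d : ℕ) (A C₁ B c : ℝ)
    (X : C(UnitAddTorus (Fin d), ℂ)), ML ν A C₁ → 0 < c → (∀ k, (X k).im ≤ -c) →
    Wn (X + ct d Complex.I) B → 0 ≤ B → A * B < 1 →
    Wn (GX ν X - ct d (∫ v, dd v ∂ν)) (A * (A * B) / (1 - A * B))

/-- PSG. The effective phase from `GX` (algebra, from `S_PSI`). -/
def S_PSG : Prop :=
  ∀ (ν : Measure ℝ) [IsProbabilityMeasure ν] (d : ℕ) (c : ℝ) (X : C(UnitAddTorus (Fin d), ℂ)),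
    0 < c → (∀ k, (X k).im ≤ -c) → ∀ k, GX ν X k ≠ 0 →
      psi ν (toC fun k => cayx (X k) 0) k = cayx (1 / GX ν X k - X k) 0

/-- GAP. The gap (from WAL, BETW, ZCL, ANA, PSG, `S_UX`, `S_CX`, `S_FIX`). -/
def S_GAPSD : Prop :=
  ∀ C₁ : ℝ, 2 ≤ C₁ → ∃ κ : ℝ, 0 < κ ∧ ∀ (ψ : C(UnitAddCircle, ℝ)), IsSemi ψ →
    ∀ (ν : Measure ℝ) [IsProbabilityMeasure ν] (d : ℕ) (A β r : ℝ)
      (K : C(UnitAddTorus (Fin d), ℝ)), 0 < d → ML ν A C₁ → 0 < r → r ≤ 1 / 4 → 0 ≤ β →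
      (∀ z ∈ Zs d, Wn (toC (fun k => ((K k : ℂ) - z)) : C(UnitAddTorus (Fin d), ℂ)) β) →
      A * (β + 2) ≤ κ → 0 < vr ν ∧ ∃ g : ℝ, 0 < g ∧
      ∀ (ρ' : Measure ℝ) [IsProbabilityMeasure ρ'], ρ' (Set.Icc (-(r / 8)) (r / 8))ᶜ = 0 →
        ∀ z ∈ Zs d, ∀ s, IsFix ν ((lev ψ r).conv ρ') (wz K z) s → ‖s‖ ≤ 1 - g

/-- Laws for which the theorem holds. -/
def Adm (ν₀ : Measure ℝ) : Prop :=
  ∃ C₀ C₁ : ℝ, 0 < C₀ ∧ 2 ≤ C₁ ∧ ∀ sg : ℝ, 1 ≤ sg → ML (ν₀.map fun x => sg * x) (C₀ / sg) C₁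

/-- MOMG. The standard Gaussian law: `(v - i)⁻ᵐ = i^m / (m-1)! ∫_0^∞ t^(m-1) e^(-t - i v t) dt`, so
`|E (v - i)⁻ᵐ| ≤ 1/(m-1)! ∫_0^∞ t^(m-1) e^(-σ² t² / 2) dt ≤ σ^(-m) ∫ e^(u - u²/2) du`, and
`Im E (v - i)⁻¹ = ∫_0^∞ e^(-t - σ² t² / 2) dt ≥ e^(-3/2) / σ`. -/
def S_MOMG : Prop := Adm (gaussianReal 0 1)

/-- MOMU. The uniform law on `[-1, 1]`. -/
def S_MOMU : Prop := Adm ((1 / 2 : ℝ≥0∞) • (volume.restrict (Set.Icc (-1 : ℝ) 1)))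

/-- FIN. The theorem (from GAP, as in `Pool/Agent/Run7/h514/VI/FIN.lean`, with
`γ = 2 d / a`, `K = γ • (adjm d + a)`, `A = C₀ / (γ sg)`, `β = γ (2 d + a) + 4 d + 1`,
and `l` small). -/
def S_FINSD : Prop :=
  ∀ (ν₀ : Measure ℝ) [IsProbabilityMeasure ν₀], Adm ν₀ → ∃ C : ℝ, 0 < C ∧
    ∀ (d : ℕ), 0 < d → ∀ a sg ε : ℝ, 0 < a → C * (d + a) ≤ sg → 0 < ε →
      ∃ b : C(ℝ, ℝ), (∀ t, |b t| ≤ ε) ∧
        (∀ x : Fin d → ℤ,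
          ‖UnitAddTorus.mFourierCoeff (fun k : UnitAddTorus (Fin d) =>
            ((b (adjm d k) : ℝ) : ℂ)) x‖ ≤ ε / (1 + ‖x‖) ^ ((d : ℝ) / 3)) ∧
        ∀ᵐ v ∂(Pn ν₀ (Fin d → ℤ)), ACIK (adjm d + b.comp (adjm d)) sg v (-a) a

end

end Pool.Agent.Run7.h47.SD
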